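import Pool.Agent.TH683.LRC.Sound

/-!
# Completeness of the simulation of the phases
-/

set_option autoImplicit false

namespace Pool.Agent.TH683.LRC

open Relation

variable {T D Q K : Type}

theorem Step.of {Z : Sys T D Q K} {A : NN D Q K} {x : List (Symbol T (NN D Q K))}
    {U W : Set (NN D Q K)} (hr : Rule Z A x U W) (u v : List (Symbol T (NN D Q K)))
    (hU : ∀ B ∈ U, Symbol.nonterminal B ∈ u) (hW : ∀ B ∈ W, Symbol.nonterminal B ∉ u) :
    Step Z (u ++ Symbol.nonterminal A :: v) (u ++ (x ++ v)) :=
  ⟨u, v, A, x, U, W, hr, rfl, rfl, hU, hW⟩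

theorem run_mid {Z : Sys T D Q K} {k : K} {α β : List (Symbol T D)}
    (h : ReflTransGen (MT Z k) α β) (ws : List K) (r : List (Symbol T (NN D Q K))) :
    ReflTransGen (Step Z) (Ip (some (k, false)) ws ++ (α.map emb ++ r))
      (Ip (some (k, false)) ws ++ (β.map emb ++ r)) := by
  induction h with
  | refl => exact ReflTransGen.refl
  | tail _ hs ih =>
    refine ih.tail ?_
    obtain ⟨u, v, A, x, U, W, hin, rfl, rfl, hU, hW⟩ := hs
    have h1 := Step.of (Rule.mid k A x U W hin) (Ip (some (k, false)) ws ++ u.map emb)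
      (v.map emb ++ r) (by
        rintro B (rfl | ⟨B, hB, rfl⟩)
        · simp [Ip]
        · rw [List.mem_append]
          exact Or.inr (List.mem_map.2 ⟨_, hU B hB, rfl⟩)) (by
        rintro _ ⟨B, hB, rfl⟩ hmem
        rw [List.mem_append] at hmem
        rcases hmem with hmem | hmem
        · obtain ⟨k', i, h5⟩ := mem_Ip hmem
          simp at h5
        · obtain ⟨d, h5, h6⟩ := mem_emb hmem
          simp only [NN.md.injEq] at h5
          subst h5
          exact hW _ hB h6)
    simpa [emb] using h1

theorem run_tick (Z : Sys T D Q K) (k : K) (ws : List K) (n : ℕ) (α β : List (Symbol T D))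
    (h : ReflTransGen (MT Z k) α β) (hc : Chk Z k β) :
    ReflTransGen (Step Z) (Ip none (k :: ws) ++ (α.map emb ++ Rp false (n + 1)))
      (Ip none ws ++ (β.map emb ++ Rp false n)) := by
  have h1 : Step Z (Ip none (k :: ws) ++ (α.map emb ++ Rp false (n + 1)))
      (Ip (some (k, false)) ws ++ (α.map emb ++ Rp false (n + 1))) := by
    have := Step.of (Z := Z) (Rule.act k) [] (Ip none ws ++ (α.map emb ++ Rp false (n + 1)))
      (by simp) (by simp)
    simpa [Ip] using this
  have h2 := run_mid h ws (Rp false (n + 1))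
  have h3 : Step Z (Ip (some (k, false)) ws ++ (β.map emb ++ Rp false (n + 1)))
      (Ip (some (k, false)) ws ++ (β.map emb ++ Rp true n)) := by
    have := Step.of (Z := Z) (Rule.pr k) (Ip (some (k, false)) ws ++ β.map emb)
      (Rp false n) (by
        rintro B rfl
        simp [Ip]) (by
        rintro B hB hmem
        rw [List.mem_append] at hmem
        rcases hmem with hmem | hmem
        · obtain ⟨k', i, h5⟩ := mem_Ip hmem
          rcases hB with ⟨q, rfl⟩ | ⟨b, rfl⟩ <;> simp at h5
        · obtain ⟨d, h5, h6⟩ := mem_emb hmem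
          rcases hB with ⟨q, rfl⟩ | ⟨b, rfl⟩ <;> simp at h5)
    rw [Rp_succ, Rp_true]
    simpa using this
  have h4 : Step Z (Ip (some (k, false)) ws ++ (β.map emb ++ Rp true n))
      (Ip (some (k, true)) ws ++ (β.map emb ++ Rp true n)) := by
    have := Step.of (Z := Z) (Rule.nxt k) [] (Ip none ws ++ (β.map emb ++ Rp true n))
      (by simp) (by simp)
    simpa [Ip] using this
  have h5 : Step Z (Ip (some (k, true)) ws ++ (β.map emb ++ Rp true n))
      (Ip (some (k, true)) ws ++ (β.map emb ++ Rp false n)) := by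
    have := Step.of (Z := Z) (Rule.fin k) (Ip (some (k, true)) ws ++ β.map emb)
      (Rp false n) (by
        rintro B (rfl | ⟨B, hB, rfl⟩)
        · simp [Ip]
        · rw [List.mem_append]
          exact Or.inr (List.mem_map.2 ⟨_, hc.1 B hB, rfl⟩)) (by
        rintro _ ⟨B, hB, rfl⟩ hmem
        rw [List.mem_append] at hmem
        rcases hmem with hmem | hmem
        · obtain ⟨k', i, h5⟩ := mem_Ip hmem
          simp at h5
        · obtain ⟨d, h5, h6⟩ := mem_emb hmem
          simp only [NN.md.injEq] at h5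
          subst h5
          exact hc.2 _ hB h6)
    rw [Rp_true]
    simpa using this
  have h6 : Step Z (Ip (some (k, true)) ws ++ (β.map emb ++ Rp false n))
      (Ip none ws ++ (β.map emb ++ Rp false n)) := by
    have := Step.of (Z := Z) (Rule.era k) [] (Ip none ws ++ (β.map emb ++ Rp false n))
      (by simp) (by simp)
    simpa [Ip] using this
  exact (((((ReflTransGen.single h1).trans h2).tail h3).tail h4).tail h5).tail h6

theorem run_ticks {Z : Sys T D Q K} {q : Q} {α : List (Symbol T D)} (h : Ticks Z q α) :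
    ∃ ts : List K, Chn Z Z.q0 ts q ∧ ∀ (ws : List K) (n : ℕ),
      ReflTransGen (Step Z)
        (Ip none (ts ++ ws) ++ ([Symbol.nonterminal Z.s0].map emb ++ Rp false (ts.length + n)))
        (Ip none ws ++ (α.map emb ++ Rp false n)) := by
  induction h with
  | start =>
    refine ⟨[], Chn.nil _, fun ws n => ?_⟩
    simp only [List.nil_append, List.length_nil, Nat.zero_add]
    exact ReflTransGen.refl
  | step k α β _ h hc ih =>
    obtain ⟨ts, hch, ht⟩ := ih
    refine ⟨ts ++ [k], hch.snoc k rfl, fun ws n => ?_⟩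
    have h1 := ht (k :: ws) (n + 1)
    rw [List.length_append, List.length_singleton, List.append_assoc, List.singleton_append,
      show ts.length + 1 + n = ts.length + (n + 1) by omega]
    exact h1.trans (run_tick Z k ws n α β h hc)

theorem run_gen {Z : Sys T D Q K} {q q' : Q} {ts : List K} (h : Chn Z q ts q') :
    ∀ (ws : List K) (n : ℕ), ReflTransGen (Step Z)
      (Ip none ws ++ ([Symbol.nonterminal (NN.gen q)] ++ Rp false n))
      (Ip none (ws ++ ts) ++ ([Symbol.nonterminal (NN.gen q')] ++ Rp false (n + ts.length))) := by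
  induction h with
  | nil q =>
    intro ws n
    simp only [List.append_nil, List.length_nil, Nat.add_zero]
    exact ReflTransGen.refl
  | cons k ts q' _ ih =>
    intro ws n
    have h1 := Step.of (Z := Z) (Rule.gen k) (Ip none ws) (Rp false n) (by simp) (by simp)
    have h2 := ih (ws ++ [k]) (n + 1)
    rw [Ip_snoc, Rp_succ, List.append_assoc ws, List.singleton_append,
      show n + 1 + ts.length = n + (k :: ts).length by rw [List.length_cons]; omega] at h2
    refine ReflTransGen.head ?_ h2
    simpa using h1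

theorem complete {Z : Sys T D Q K} {w : List T} (h : Ticks Z Z.q0 (w.map .terminal)) :
    ReflTransGen (Step Z) [.nonterminal (.gen Z.q0)] (w.map .terminal) := by
  obtain ⟨ts, hch, ht⟩ := run_ticks h
  have h1 := run_gen hch [] 0
  have h2 := ht [] 0
  have h3 : Step Z (Ip none ts ++ ([Symbol.nonterminal (NN.gen Z.q0)] ++ Rp false ts.length))
      (Ip none ts ++ ([Symbol.nonterminal Z.s0].map emb ++ Rp false ts.length)) := by
    have := Step.of (Z := Z) Rule.ctr (Ip none ts) (Rp false ts.length) (by simp) (by simp)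
    simpa [emb] using this
  simp only [List.append_nil, Nat.add_zero, List.nil_append, Nat.zero_add] at h1 h2
  have h4 := (h1.tail h3).trans h2
  have h5 : ((w.map .terminal : List (Symbol T D)).map emb : List (Symbol T (NN D Q K))) =
      w.map .terminal := by
    rw [List.map_map]
    rfl
  rw [h5] at h4
  simpa [Ip, Rp] using h4

theorem step_iff {Z : Sys T D Q K} {w : List T} :
    ReflTransGen (Step Z) [.nonterminal (.gen Z.q0)] (w.map .terminal) ↔
      Ticks Z Z.q0 (w.map .terminal) := ⟨sound, complete⟩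

/-! ### The grammar -/

theorem finite_rhs (Z : Sys T D Q K) [Finite D] [Finite Q] [Finite K]
    (hZ : ∀ k, (Z.rules k).Finite) :
    {x : List (Symbol T (NN D Q K)) | ∃ A U W, Rule Z A x U W}.Finite := by
  have h1 : (Set.range (fun k : K => ([.nonterminal (.ins k 0), .nonterminal (.gen (Z.dst k)),
      .nonterminal (.rc false)] : List (Symbol T (NN D Q K))))).Finite := Set.finite_range _
  have h2 : (Set.range (fun X : NN D Q K => ([.nonterminal X] :
      List (Symbol T (NN D Q K))))).Finite := Set.finite_range _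
  have h3 : (⋃ k : K, (fun ρ : D × List (Symbol T D) × Finset D × Finset D =>
      (ρ.2.1.map emb : List (Symbol T (NN D Q K)))) '' Z.rules k).Finite :=
    Set.finite_iUnion fun k => (hZ k).image _
  refine (((h1.union h2).union h3).union (Set.finite_singleton [])).subset ?_
  rintro x ⟨A, U, W, h⟩
  cases h with
  | gen k => exact Or.inl (Or.inl (Or.inl ⟨k, rfl⟩))
  | ctr => exact Or.inl (Or.inl (Or.inr ⟨_, rfl⟩))
  | act k => exact Or.inl (Or.inl (Or.inr ⟨_, rfl⟩))
  | nxt k => exact Or.inl (Or.inl (Or.inr ⟨_, rfl⟩))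
  | era k => exact Or.inr rfl
  | pr k => exact Or.inl (Or.inl (Or.inr ⟨_, rfl⟩))
  | fin k => exact Or.inr rfl
  | mid k A x U W h =>
    left; right
    rw [Set.mem_iUnion]
    exact ⟨k, (A, x, U, W), h, rfl⟩

/-- the set of the rules is finite -/
theorem finite_rules (Z : Sys T D Q K) [Finite D] [Finite Q] [Finite K]
    (hZ : ∀ k, (Z.rules k).Finite) :
    {ρ : NN D Q K × List (Symbol T (NN D Q K)) × Finset (NN D Q K) × Finset (NN D Q K) |
      Rule Z ρ.1 ρ.2.1 (ρ.2.2.1 : Set (NN D Q K)) (ρ.2.2.2 : Set (NN D Q K))}.Finite := by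
  have h := (Set.finite_univ (α := NN D Q K)).prod ((finite_rhs Z hZ).prod
    (Set.finite_univ (α := Finset (NN D Q K) × Finset (NN D Q K))))
  refine h.subset ?_
  rintro ⟨A, x, U, W⟩ hρ
  exact ⟨Set.mem_univ _, ⟨A, _, _, hρ⟩, Set.mem_univ _⟩

/-- **The general simulation lemma.** -/
theorem exists_grammar (Z : Sys T D Q K) [Finite D] [Finite Q] [Finite K]
    (hZ : ∀ k, (Z.rules k).Finite) :
    ∃ P : Finset (NN D Q K × List (Symbol T (NN D Q K)) × Finset (NN D Q K) ×
        Finset (NN D Q K)), ∀ w : List T,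
      Relation.ReflTransGen (fun (α β : List (Symbol T (NN D Q K))) =>
        ∃ (u v : List (Symbol T (NN D Q K))) (A : NN D Q K) (x : List (Symbol T (NN D Q K)))
          (U W : Finset (NN D Q K)), α = u ++ [Symbol.nonterminal A] ++ v ∧ β = u ++ x ++ v ∧
          ((A, x, U, W) ∈ P ∧ (∀ B ∈ U, Symbol.nonterminal B ∈ u) ∧
            (∀ B ∈ W, Symbol.nonterminal B ∉ u)))
        [Symbol.nonterminal (NN.gen Z.q0)] (w.map Symbol.terminal) ↔
      Ticks Z Z.q0 (w.map Symbol.terminal) := by
  classical
  refine ⟨(finite_rules Z hZ).toFinset, fun w => ?_⟩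
  rw [← step_iff]
  have h : (fun (α β : List (Symbol T (NN D Q K))) =>
        ∃ (u v : List (Symbol T (NN D Q K))) (A : NN D Q K) (x : List (Symbol T (NN D Q K)))
          (U W : Finset (NN D Q K)), α = u ++ [Symbol.nonterminal A] ++ v ∧ β = u ++ x ++ v ∧
          ((A, x, U, W) ∈ (finite_rules Z hZ).toFinset ∧ (∀ B ∈ U, Symbol.nonterminal B ∈ u) ∧
            (∀ B ∈ W, Symbol.nonterminal B ∉ u))) = Step Z := by
    funext α β
    refine propext ⟨?_, ?_⟩
    · rintro ⟨u, v, A, x, U, W, rfl, rfl, hr, hU, hW⟩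
      rw [Set.Finite.mem_toFinset] at hr
      exact ⟨u, v, A, x, U, W, hr, by simp, by simp, hU, hW⟩
    · rintro ⟨u, v, A, x, U, W, hr, rfl, rfl, hU, hW⟩
      refine ⟨u, v, A, x, U.toFinite.toFinset, W.toFinite.toFinset, by simp, by simp, ?_, ?_, ?_⟩
      · rw [Set.Finite.mem_toFinset]
        show Rule Z A x _ _
        rw [Set.Finite.coe_toFinset, Set.Finite.coe_toFinset]
        exact hr
      · intro B hB
        exact hU B ((Set.Finite.mem_toFinset _).1 hB)
      · intro B hB
        exact hW B ((Set.Finite.mem_toFinset _).1 hB)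
  rw [h]

end Pool.Agent.TH683.LRC
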