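import Mathlib

/-!
# Left random context grammars with controlled phases

A general lemma: a left random context grammar can simulate a sequence of phases, in which different
rules can be used, with a check of the symbols of the sentential form at the end of every phase.
-/

set_option autoImplicit false

namespace Pool.Agent.TH683.LRC

open Relation

/-- The nonterminals of the grammar: generators, instructions (waiting, first half, second half),
receipts (plain, primed) and the nonterminals of the system. -/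
inductive NN (D Q K : Type) : Type
  | gen : Q → NN D Q K
  | ins : K → Fin 3 → NN D Q K
  | rc : Bool → NN D Q K
  | md : D → NN D Q K

instance finNN {D Q K : Type} [Finite D] [Finite Q] [Finite K] : Finite (NN D Q K) := by
  refine Finite.of_surjective (α := (Q ⊕ (K × Fin 3)) ⊕ (Bool ⊕ D)) (fun x => match x with
    | .inl (.inl q) => NN.gen q
    | .inl (.inr (k, i)) => NN.ins k i
    | .inr (.inl b) => NN.rc b
    | .inr (.inr d) => NN.md d) ?_
  intro x
  cases x with
  | gen q => exact ⟨.inl (.inl q), rfl⟩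
  | ins k i => exact ⟨.inl (.inr (k, i)), rfl⟩
  | rc b => exact ⟨.inr (.inl b), rfl⟩
  | md d => exact ⟨.inr (.inr d), rfl⟩

/-- A system of phases. -/
structure Sys (T D Q K : Type) where
  src : K → Q
  dst : K → Q
  rules : K → Set (D × List (Symbol T D) × Finset D × Finset D)
  cu : K → Set D
  cw : K → Set D
  q0 : Q
  s0 : D

variable {T D Q K : Type}

/-- a step in the phase `k` -/
def MT (Z : Sys T D Q K) (k : K) (α β : List (Symbol T D)) : Prop :=
  ∃ (u v : List (Symbol T D)) (A : D) (x : List (Symbol T D)) (U W : Finset D),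
    (A, x, U, W) ∈ Z.rules k ∧ α = u ++ Symbol.nonterminal A :: v ∧ β = u ++ (x ++ v) ∧
    (∀ B ∈ U, Symbol.nonterminal B ∈ u) ∧ (∀ B ∈ W, Symbol.nonterminal B ∉ u)

/-- the check at the end of the phase `k` -/
def Chk (Z : Sys T D Q K) (k : K) (α : List (Symbol T D)) : Prop :=
  (∀ B ∈ Z.cu k, Symbol.nonterminal B ∈ α) ∧ (∀ B ∈ Z.cw k, Symbol.nonterminal B ∉ α)

/-- sequences of phases -/
inductive Ticks (Z : Sys T D Q K) : Q → List (Symbol T D) → Prop
  | start : Ticks Z Z.q0 [Symbol.nonterminal Z.s0]
  | step (k : K) (α β : List (Symbol T D)) : Ticks Z (Z.src k) α → ReflTransGen (MT Z k) α β →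
      Chk Z k β → Ticks Z (Z.dst k) β

/-- the embedding of the symbols -/
def emb : Symbol T D → Symbol T (NN D Q K)
  | .terminal t => .terminal t
  | .nonterminal d => .nonterminal (.md d)

theorem emb_nt (d : D) : (emb (Symbol.nonterminal d) : Symbol T (NN D Q K)) =
    Symbol.nonterminal (.md d) := rfl

theorem emb_inj : Function.Injective (emb : Symbol T D → Symbol T (NN D Q K)) := by
  intro a b h
  cases a <;> cases b <;> simp_all [emb]

/-- The rules. -/
inductive Rule (Z : Sys T D Q K) : NN D Q K → List (Symbol T (NN D Q K)) → Set (NN D Q K) →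
    Set (NN D Q K) → Prop
  | gen (k : K) : Rule Z (.gen (Z.src k)) [.nonterminal (.ins k 0), .nonterminal (.gen (Z.dst k)),
      .nonterminal (.rc false)] ∅ ∅
  | ctr : Rule Z (.gen Z.q0) [.nonterminal (.md Z.s0)] ∅ ∅
  | act (k : K) : Rule Z (.ins k 0) [.nonterminal (.ins k 1)] ∅ {B | ∃ k' i, B = .ins k' i}
  | nxt (k : K) : Rule Z (.ins k 1) [.nonterminal (.ins k 2)] ∅ ∅
  | era (k : K) : Rule Z (.ins k 2) [] ∅ ∅
  | pr (k : K) : Rule Z (.rc false) [.nonterminal (.rc true)] {.ins k 1}
      {B | (∃ q, B = .gen q) ∨ ∃ b, B = .rc b}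
  | fin (k : K) : Rule Z (.rc true) [] ({.ins k 2} ∪ NN.md '' Z.cu k) (NN.md '' Z.cw k)
  | mid (k : K) (A : D) (x : List (Symbol T D)) (U W : Finset D) (h : (A, x, U, W) ∈ Z.rules k) :
      Rule Z (.md A) (x.map emb) ({.ins k 1} ∪ NN.md '' (U : Set D)) (NN.md '' (W : Set D))

/-- a step of the grammar -/
def Step (Z : Sys T D Q K) (α β : List (Symbol T (NN D Q K))) : Prop :=
  ∃ (u v : List (Symbol T (NN D Q K))) (A : NN D Q K) (x : List (Symbol T (NN D Q K)))
    (U W : Set (NN D Q K)), Rule Z A x U W ∧ α = u ++ Symbol.nonterminal A :: v ∧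
    β = u ++ (x ++ v) ∧ (∀ B ∈ U, Symbol.nonterminal B ∈ u) ∧ (∀ B ∈ W, Symbol.nonterminal B ∉ u)

/-- the instructions -/
def Ip : Option (K × Bool) → List K → List (Symbol T (NN D Q K))
  | none, ws => ws.map (fun k => .nonterminal (.ins k 0))
  | some (k, false), ws => .nonterminal (.ins k 1) :: ws.map (fun k => .nonterminal (.ins k 0))
  | some (k, true), ws => .nonterminal (.ins k 2) :: ws.map (fun k => .nonterminal (.ins k 0))

/-- the receipts -/
def Rp (b : Bool) (k : ℕ) : List (Symbol T (NN D Q K)) :=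
  (if b then [.nonterminal (.rc true)] else []) ++ List.replicate k (.nonterminal (.rc false))

theorem split3 {α : Type} (a b c u v : List α) (s : α) (h : a ++ (b ++ c) = u ++ s :: v) :
    (∃ a2, a = u ++ s :: a2 ∧ v = a2 ++ (b ++ c)) ∨
    (∃ b1 b2, b = b1 ++ s :: b2 ∧ u = a ++ b1 ∧ v = b2 ++ c) ∨
    (∃ c1, c = c1 ++ s :: v ∧ u = a ++ (b ++ c1)) := by
  have key : ∀ (a b u v : List α), a ++ b = u ++ s :: v →
      (∃ a2, a = u ++ s :: a2 ∧ v = a2 ++ b) ∨ (∃ b1, b = b1 ++ s :: v ∧ u = a ++ b1) := by
    intro a b u v h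
    rcases List.append_eq_append_iff.1 h with ⟨w, h1, h2⟩ | ⟨w, h1, h2⟩
    · right
      exact ⟨w, h2, h1⟩
    · cases w with
      | nil =>
        right
        simp only [List.nil_append, List.append_nil] at h1 h2
        exact ⟨[], by simpa using h2.symm, by simpa using h1.symm⟩
      | cons s' w =>
        simp only [List.cons_append, List.cons.injEq] at h2
        left
        obtain ⟨rfl, h2⟩ := h2
        exact ⟨w, h1, h2⟩
  rcases key _ _ _ _ h with ⟨a2, h1, h2⟩ | ⟨b1, h1, h2⟩
  · exact Or.inl ⟨a2, h1, h2⟩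
  · rcases key _ _ _ _ h1 with ⟨a2, h3, h4⟩ | ⟨b1', h3, h4⟩
    · exact Or.inr (Or.inl ⟨b1, a2, h3, h2, h4⟩)
    · exact Or.inr (Or.inr ⟨b1', h3, by rw [h2, h4]⟩)

theorem mem_ws {ws : List K} {s : Symbol T (NN D Q K)}
    (h : s ∈ ws.map (fun k => (.nonterminal (.ins k 0) : Symbol T (NN D Q K)))) :
    ∃ k, s = .nonterminal (.ins k 0) := by
  obtain ⟨k, _, rfl⟩ := List.mem_map.1 h
  exact ⟨k, rfl⟩

theorem mem_Ip {a : Option (K × Bool)} {ws : List K} {s : Symbol T (NN D Q K)}
    (h : s ∈ (Ip a ws : List (Symbol T (NN D Q K)))) : ∃ k i, s = .nonterminal (.ins k i) := by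
  rcases a with _ | ⟨k, _ | _⟩
  · obtain ⟨k, rfl⟩ := mem_ws h
    exact ⟨k, _, rfl⟩
  · rcases List.mem_cons.1 h with rfl | h
    · exact ⟨k, _, rfl⟩
    · obtain ⟨k, rfl⟩ := mem_ws h
      exact ⟨k, _, rfl⟩
  · rcases List.mem_cons.1 h with rfl | h
    · exact ⟨k, _, rfl⟩
    · obtain ⟨k, rfl⟩ := mem_ws h
      exact ⟨k, _, rfl⟩

theorem mem_Ip1 {a : Option (K × Bool)} {ws : List K} {k : K}
    (h : (.nonterminal (.ins k 1) : Symbol T (NN D Q K)) ∈ Ip a ws) : a = some (k, false) := by
  rcases a with _ | ⟨k', _ | _⟩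
  · obtain ⟨k, h⟩ := mem_ws h
    simp at h
  · rcases List.mem_cons.1 h with h | h
    · simp only [Symbol.nonterminal.injEq, NN.ins.injEq, and_true] at h
      rw [h]
    · obtain ⟨k, h⟩ := mem_ws h
      simp at h
  · rcases List.mem_cons.1 h with h | h
    · simp at h
    · obtain ⟨k, h⟩ := mem_ws h
      simp at h

theorem mem_Ip2 {a : Option (K × Bool)} {ws : List K} {k : K}
    (h : (.nonterminal (.ins k 2) : Symbol T (NN D Q K)) ∈ Ip a ws) : a = some (k, true) := by
  rcases a with _ | ⟨k', _ | _⟩
  · obtain ⟨k, h⟩ := mem_ws h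
    simp at h
  · rcases List.mem_cons.1 h with h | h
    · simp at h
    · obtain ⟨k, h⟩ := mem_ws h
      simp at h
  · rcases List.mem_cons.1 h with h | h
    · simp only [Symbol.nonterminal.injEq, NN.ins.injEq, and_true] at h
      rw [h]
    · obtain ⟨k, h⟩ := mem_ws h
      simp at h

theorem mem_Rp {b : Bool} {k : ℕ} {s : Symbol T (NN D Q K)}
    (h : s ∈ (Rp b k : List (Symbol T (NN D Q K)))) : ∃ b', s = .nonterminal (.rc b') := by
  unfold Rp at h
  rw [List.mem_append] at h
  rcases h with h | h
  · split_ifs at h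
    · simp at h
      exact ⟨_, h⟩
    · simp at h
  · rw [List.mem_replicate] at h
    exact ⟨_, h.2⟩

/-- the decomposition at a waiting instruction that is the first one -/
theorem Ip_act {a : Option (K × Bool)} {ws : List K} {k : K} {u v : List (Symbol T (NN D Q K))}
    (h : (Ip a ws : List (Symbol T (NN D Q K))) = u ++ .nonterminal (.ins k 0) :: v)
    (hu : ∀ k' i, (.nonterminal (.ins k' i) : Symbol T (NN D Q K)) ∉ u) :
    a = none ∧ u = [] ∧ ∃ ws', ws = k :: ws' ∧ v = Ip none ws' := by
  have hu0 : u = [] := by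
    cases u with
    | nil => rfl
    | cons s u =>
      exfalso
      have hs : s ∈ (Ip a ws : List (Symbol T (NN D Q K))) := by
        rw [h]; simp
      obtain ⟨k', i, rfl⟩ := mem_Ip hs
      exact hu k' i (by simp)
  subst hu0
  rw [List.nil_append] at h
  rcases a with _ | ⟨k', _ | _⟩
  · refine ⟨rfl, rfl, ?_⟩
    cases ws with
    | nil => simp [Ip] at h
    | cons k' ws =>
      simp only [Ip, List.map_cons, List.cons.injEq, Symbol.nonterminal.injEq, NN.ins.injEq,
        and_true] at h
      exact ⟨ws, by rw [h.1], h.2.symm⟩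
  · simp [Ip] at h
  · simp [Ip] at h

theorem Ip_nxt {a : Option (K × Bool)} {ws : List K} {k : K} {u v : List (Symbol T (NN D Q K))}
    (h : (Ip a ws : List (Symbol T (NN D Q K))) = u ++ .nonterminal (.ins k 1) :: v) :
    a = some (k, false) ∧ u = [] ∧ v = Ip none ws := by
  have ha : a = some (k, false) := by
    apply mem_Ip1 (T := T) (D := D) (Q := Q) (ws := ws)
    rw [h]; simp
  subst ha
  cases u with
  | nil =>
    simp only [Ip, List.nil_append, List.cons.injEq, true_and] at h
    exact ⟨rfl, rfl, h.symm⟩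
  | cons s u =>
    exfalso
    simp only [Ip, List.cons_append, List.cons.injEq] at h
    have : (.nonterminal (.ins k 1) : Symbol T (NN D Q K)) ∈
        ws.map (fun k => (.nonterminal (.ins k 0) : Symbol T (NN D Q K))) := by
      rw [h.2]; simp
    obtain ⟨k', h'⟩ := mem_ws this
    simp at h'

theorem Ip_era {a : Option (K × Bool)} {ws : List K} {k : K} {u v : List (Symbol T (NN D Q K))}
    (h : (Ip a ws : List (Symbol T (NN D Q K))) = u ++ .nonterminal (.ins k 2) :: v) :
    a = some (k, true) ∧ u = [] ∧ v = Ip none ws := by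
  have ha : a = some (k, true) := by
    apply mem_Ip2 (T := T) (D := D) (Q := Q) (ws := ws)
    rw [h]; simp
  subst ha
  cases u with
  | nil =>
    simp only [Ip, List.nil_append, List.cons.injEq, true_and] at h
    exact ⟨rfl, rfl, h.symm⟩
  | cons s u =>
    exfalso
    simp only [Ip, List.cons_append, List.cons.injEq] at h
    have : (.nonterminal (.ins k 2) : Symbol T (NN D Q K)) ∈
        ws.map (fun k => (.nonterminal (.ins k 0) : Symbol T (NN D Q K))) := by
      rw [h.2]; simp
    obtain ⟨k', h'⟩ := mem_ws this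
    simp at h'

theorem Rp_pr {b : Bool} {k : ℕ} {u v : List (Symbol T (NN D Q K))}
    (h : (Rp b k : List (Symbol T (NN D Q K))) = u ++ .nonterminal (.rc false) :: v)
    (hu : ∀ b', (.nonterminal (.rc b') : Symbol T (NN D Q K)) ∉ u) :
    b = false ∧ u = [] ∧ ∃ k', k = k' + 1 ∧ v = Rp false k' := by
  have hu0 : u = [] := by
    cases u with
    | nil => rfl
    | cons s u =>
      exfalso
      have hs : s ∈ (Rp b k : List (Symbol T (NN D Q K))) := by
        rw [h]; simp
      obtain ⟨b', rfl⟩ := mem_Rp hs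
      exact hu b' (by simp)
  subst hu0
  rw [List.nil_append] at h
  unfold Rp at h
  cases b
  · cases k with
    | zero => simp at h
    | succ k =>
      simp only [Bool.false_eq_true, if_false, List.nil_append, List.replicate_succ,
        List.cons.injEq, true_and] at h
      exact ⟨rfl, rfl, k, rfl, by rw [← h]; simp [Rp]⟩
  · simp at h

theorem Rp_fin {b : Bool} {k : ℕ} {u v : List (Symbol T (NN D Q K))}
    (h : (Rp b k : List (Symbol T (NN D Q K))) = u ++ .nonterminal (.rc true) :: v) :
    b = true ∧ u = [] ∧ v = Rp false k := by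
  have hnr : ∀ w : List (Symbol T (NN D Q K)), List.replicate k (.nonterminal (.rc false)) ≠
      w ++ .nonterminal (.rc true) :: v := by
    intro w hw
    have : (.nonterminal (.rc true) : Symbol T (NN D Q K)) ∈
        List.replicate k (.nonterminal (.rc false)) := by
      rw [hw]; simp
    rw [List.mem_replicate] at this
    simp at this
  unfold Rp at h
  cases b
  · exact absurd (by simpa using h) (hnr u)
  · cases u with
    | nil =>
      simp only [if_true, List.cons_append, List.nil_append, List.cons.injEq, true_and] at h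
      exact ⟨rfl, rfl, by rw [← h]; simp [Rp]⟩
    | cons s u =>
      simp only [if_true, List.cons_append, List.nil_append, List.cons.injEq] at h
      exact absurd h.2 (hnr u)

end Pool.Agent.TH683.LRC
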