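import Pool.Agent.TH683.LRC.Compl

/-!
# One-sided random context grammars as systems of phases
-/

set_option autoImplicit false

namespace Pool.Agent.TH683.LRC

open Relation

/-- kinds of symbols: plain, marked, confirmed, barred, hatted -/
inductive Kd : Type
  | pl | m1 | m2 | br | ht

instance : Finite Kd := by
  refine Finite.of_surjective (α := Fin 5) (fun i => match i with
    | 0 => Kd.pl | 1 => Kd.m1 | 2 => Kd.m2 | 3 => Kd.br | 4 => Kd.ht) ?_
  intro x
  cases x
  · exact ⟨0, rfl⟩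
  · exact ⟨1, rfl⟩
  · exact ⟨2, rfl⟩
  · exact ⟨3, rfl⟩
  · exact ⟨4, rfl⟩

variable {T N : Type}

/-- rules -/
abbrev Rl (T N : Type) : Type := N × List (Symbol T N) × Finset N × Finset N

/-- a step of a one-sided random context grammar -/
def GS (PL PR : Finset (Rl T N)) (α β : List (Symbol T N)) : Prop :=
  ∃ (u v : List (Symbol T N)) (A : N) (x : List (Symbol T N)) (U W : Finset N),
    α = u ++ [Symbol.nonterminal A] ++ v ∧ β = u ++ x ++ v ∧
    (((A, x, U, W) ∈ PL ∧ (∀ B ∈ U, Symbol.nonterminal B ∈ u) ∧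
        (∀ B ∈ W, Symbol.nonterminal B ∉ u)) ∨
     ((A, x, U, W) ∈ PR ∧ (∀ B ∈ U, Symbol.nonterminal B ∈ v) ∧
        (∀ B ∈ W, Symbol.nonterminal B ∉ v)))

/-- a symbol with a kind -/
def kd (a : Kd) : Symbol T N → Symbol T (Kd × N)
  | .terminal t => .terminal t
  | .nonterminal Z => .nonterminal (a, Z)

/-- forget the kinds -/
def und : Symbol T (Kd × N) → Symbol T N
  | .terminal t => .terminal t
  | .nonterminal Z => .nonterminal Z.2

theorem und_kd (a : Kd) (s : Symbol T N) : und (kd a s) = s := by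
  cases s <;> rfl

theorem und_kd_map (a : Kd) (u : List (Symbol T N)) : (u.map (kd a)).map und = u := by
  rw [List.map_map]
  have : (und ∘ kd a : Symbol T N → Symbol T N) = id := funext fun s => und_kd a s
  rw [this, List.map_id]

/-- all kinds in the list satisfy the predicate -/
def KIn (P : Kd → N → Prop) (ms : List (Symbol T (Kd × N))) : Prop :=
  ∀ k Z, Symbol.nonterminal (k, Z) ∈ ms → P k Z

theorem KIn.append {P : Kd → N → Prop} {a b : List (Symbol T (Kd × N))} :
    KIn P (a ++ b) ↔ KIn P a ∧ KIn P b := by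
  constructor
  · intro h
    exact ⟨fun k Z hm => h k Z (List.mem_append_left _ hm),
      fun k Z hm => h k Z (List.mem_append_right _ hm)⟩
  · rintro ⟨h1, h2⟩ k Z hm
    rcases List.mem_append.1 hm with h | h
    · exact h1 k Z h
    · exact h2 k Z h

theorem KIn.cons {P : Kd → N → Prop} {k : Kd} {Z : N} {b : List (Symbol T (Kd × N))} :
    KIn P (Symbol.nonterminal (k, Z) :: b) ↔ P k Z ∧ KIn P b := by
  constructor
  · intro h
    exact ⟨h k Z (by simp), fun k Z hm => h k Z (List.mem_cons_of_mem _ hm)⟩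
  · rintro ⟨h1, h2⟩ k' Z' hm
    rcases List.mem_cons.1 hm with h | h
    · simp only [Symbol.nonterminal.injEq, Prod.mk.injEq] at h
      rw [h.1, h.2]
      exact h1
    · exact h2 k' Z' h

theorem KIn.mono {P P' : Kd → N → Prop} {a : List (Symbol T (Kd × N))} (h : KIn P a)
    (hP : ∀ k Z, P k Z → P' k Z) : KIn P' a := fun k Z hm => hP k Z (h k Z hm)

theorem KIn.kd {P : Kd → N → Prop} (a : Kd) (u : List (Symbol T N)) (h : ∀ Z, P a Z) :
    KIn P (u.map (kd a)) := by
  intro k Z hm
  obtain ⟨s, _, hs⟩ := List.mem_map.1 hm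
  cases s with
  | terminal t => simp [LRC.kd] at hs
  | nonterminal Z' =>
    simp only [LRC.kd, Symbol.nonterminal.injEq, Prod.mk.injEq] at hs
    rw [← hs.1, ← hs.2]
    exact h Z'

theorem mem_und {ms : List (Symbol T (Kd × N))} {B : N}
    (h : (Symbol.nonterminal B : Symbol T N) ∈ ms.map und) :
    ∃ k, Symbol.nonterminal (k, B) ∈ ms := by
  obtain ⟨s, hs, h⟩ := List.mem_map.1 h
  cases s with
  | terminal t => simp [und] at h
  | nonterminal Z =>
    simp only [und, Symbol.nonterminal.injEq] at h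
    exact ⟨Z.1, by rw [← h]; exact hs⟩

theorem und_mem {ms : List (Symbol T (Kd × N))} {B : N} {k : Kd}
    (h : Symbol.nonterminal (k, B) ∈ ms) : (Symbol.nonterminal B : Symbol T N) ∈ ms.map und :=
  List.mem_map.2 ⟨_, h, rfl⟩

theorem eq_pl {ms : List (Symbol T (Kd × N))} (h : KIn (fun k _ => k = .pl) ms) :
    (ms.map und).map (kd .pl) = ms := by
  rw [List.map_map]
  conv_rhs => rw [← List.map_id ms]
  apply List.map_congr_left
  intro s hs
  cases s with
  | terminal t => rfl
  | nonterminal Z =>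
    obtain ⟨k, Z⟩ := Z
    have := h k Z hs
    subst this
    rfl

section

variable (S : N) (PL PR : Finset (Rl T N))

/-- the index type of the right rules -/
abbrev Rx : Type := {ρ : Rl T N // ρ ∈ PR}

open Classical in
/-- the rules of the phases -/
noncomputable def rulesOf : Option (Rx PR × Fin 3) → Set (Rl T (Kd × N))
  | none => {ρ | ∃ σ ∈ PL, ρ = ((.pl, σ.1), σ.2.1.map (kd .pl), σ.2.2.1.image (fun B => (.pl, B)),
      σ.2.2.2.image (fun B => (.pl, B)))}
  | some (r, 0) => {((.pl, r.1.1), [.nonterminal (.m1, r.1.1)], ∅, ∅)}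
  | some (r, 1) => Set.range (fun Z : N => (((.pl, Z), [.nonterminal (.br, Z)], ∅,
        {(.m1, r.1.1), (.m2, r.1.1)}) : Rl T (Kd × N))) ∪
      Set.range (fun Z : N => (((.pl, Z), [.nonterminal (.ht, Z)], {(.m1, r.1.1)}, ∅) :
        Rl T (Kd × N))) ∪
      {((.m1, r.1.1), [.nonterminal (.m2, r.1.1)], ∅, {(.m1, r.1.1), (.m2, r.1.1)})}
  | some (r, 2) => Set.range (fun Z : N => (((.br, Z), [.nonterminal (.pl, Z)], ∅, ∅) :
        Rl T (Kd × N))) ∪
      Set.range (fun Z : N => (((.ht, Z), [.nonterminal (.pl, Z)], ∅, ∅) :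
        Rl T (Kd × N))) ∪
      {((.m2, r.1.1), r.1.2.1.map (kd .pl), ∅, ∅)}

theorem rulesOf_finite [Finite N] (k : Option (Rx PR × Fin 3)) : (rulesOf PL PR k).Finite := by
  classical
  rcases k with _ | ⟨r, i⟩
  · have : rulesOf PL PR none = (fun σ : Rl T N => (((.pl, σ.1), σ.2.1.map (kd .pl),
        σ.2.2.1.image (fun B => (.pl, B)), σ.2.2.2.image (fun B => (.pl, B))) :
        Rl T (Kd × N))) '' (PL : Set (Rl T N)) := by
      ext ρ
      constructor
      · rintro ⟨σ, hσ, rfl⟩
        exact ⟨σ, hσ, rfl⟩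
      · rintro ⟨σ, hσ, rfl⟩
        exact ⟨σ, hσ, rfl⟩
    rw [this]
    exact PL.finite_toSet.image _
  · fin_cases i
    · exact Set.finite_singleton _
    · exact ((Set.finite_range _).union (Set.finite_range _)).union (Set.finite_singleton _)
    · exact ((Set.finite_range _).union (Set.finite_range _)).union (Set.finite_singleton _)

/-- the source state -/
def srcOf : Option (Rx PR × Fin 3) → Option (Rx PR × Bool)
  | none => none
  | some (_, 0) => none
  | some (r, 1) => some (r, false)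
  | some (r, 2) => some (r, true)

/-- the target state -/
def dstOf : Option (Rx PR × Fin 3) → Option (Rx PR × Bool)
  | none => none
  | some (r, 0) => some (r, false)
  | some (r, 1) => some (r, true)
  | some (_, 2) => none

/-- the symbols that have to be there at the end of the phase -/
def cuOf : Option (Rx PR × Fin 3) → Set (Kd × N)
  | none => ∅
  | some (_, 0) => ∅
  | some (r, 1) => {B | B = (.m2, r.1.1) ∨ (B.1 = .ht ∧ B.2 ∈ r.1.2.2.1)}
  | some (_, 2) => ∅

/-- the symbols that must not be there at the end of the phase -/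
def cwOf : Option (Rx PR × Fin 3) → Set (Kd × N)
  | none => ∅
  | some (_, 0) => ∅
  | some (r, 1) => {B | B = (.m1, r.1.1) ∨ ((B.1 = .pl ∨ B.1 = .ht) ∧ B.2 ∈ r.1.2.2.2)}
  | some (_, 2) => {B | B.1 = .br ∨ B.1 = .ht ∨ B.1 = .m2}

/-- the system -/
noncomputable def sysOf : Sys T (Kd × N) (Option (Rx PR × Bool)) (Option (Rx PR × Fin 3)) where
  src := srcOf PR
  dst := dstOf PR
  rules := rulesOf PL PR
  cu := cuOf PR
  cw := cwOf PR
  q0 := none
  s0 := (.pl, S)

/-- the contexts of the right rule -/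
def Ctx (r : Rx PR) (v : List (Symbol T N)) : Prop :=
  (∀ B ∈ r.1.2.2.1, Symbol.nonterminal B ∈ v) ∧ (∀ B ∈ r.1.2.2.2, Symbol.nonterminal B ∉ v)

/-- the forms in the different states -/
def MM : Option (Rx PR × Bool) → List (Symbol T (Kd × N)) → Prop
  | none, ms => KIn (fun k _ => k = .pl) ms
  | some (r, false), ms => KIn (fun k Z => k = .pl ∨ (k = .m1 ∧ Z = r.1.1)) ms
  | some (r, true), ms => ∃ l rr, ms = l ++ Symbol.nonterminal (.m2, r.1.1) :: rr ∧
      KIn (fun k _ => k = .pl ∨ k = .br) l ∧ KIn (fun k _ => k = .pl ∨ k = .ht) rr ∧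
      Ctx PR r (rr.map und)

/-- the forms during the phases -/
def PP : Option (Rx PR × Fin 3) → List (Symbol T (Kd × N)) → Prop
  | none, ms => KIn (fun k _ => k = .pl) ms
  | some (r, 0), ms => KIn (fun k Z => k = .pl ∨ (k = .m1 ∧ Z = r.1.1)) ms
  | some (r, 1), ms => KIn (fun k _ => k = .pl ∨ k = .br) ms ∨
      ∃ l k rr, (k = .m1 ∨ k = .m2) ∧ ms = l ++ Symbol.nonterminal (k, r.1.1) :: rr ∧
      KIn (fun k _ => k = .pl ∨ k = .br) l ∧
      KIn (fun k Z => k = .pl ∨ k = .ht ∨ (k = .m1 ∧ Z = r.1.1)) rr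
  | some (r, 2), ms => (∃ l rr, ms = l ++ Symbol.nonterminal (.m2, r.1.1) :: rr ∧
      KIn (fun k _ => k = .pl ∨ k = .br) l ∧ KIn (fun k _ => k = .pl ∨ k = .ht) rr ∧
      Ctx PR r (rr.map und)) ∨ KIn (fun k _ => k = .pl ∨ k = .br ∨ k = .ht) ms

variable {S PL PR}

theorem MM_PP {k : Option (Rx PR × Fin 3)} {ms : List (Symbol T (Kd × N))}
    (h : MM PR (srcOf PR k) ms) : PP PR k ms := by
  classical
  rcases k with _ | ⟨r, i⟩
  · exact h
  · fin_cases i
    · exact KIn.mono h (fun k Z hk => Or.inl hk)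
    · have h' : KIn (fun k Z => k = .pl ∨ (k = .m1 ∧ Z = r.1.1)) ms := h
      show _ ∨ _
      by_cases hm : Symbol.nonterminal (.m1, r.1.1) ∈ ms
      · obtain ⟨l, rr, rfl, hl⟩ := List.eq_append_cons_of_mem hm
        rw [KIn.append, KIn.cons] at h'
        refine Or.inr ⟨l, .m1, rr, Or.inl rfl, rfl, ?_, ?_⟩
        · intro k Z hkZ
          rcases h'.1 k Z hkZ with h1 | ⟨rfl, rfl⟩
          · exact Or.inl h1
          · exact absurd hkZ hl
        · exact h'.2.2.mono fun k Z h1 => h1.imp_right Or.inr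
      · left
        intro k Z hkZ
        rcases h' k Z hkZ with h1 | ⟨rfl, rfl⟩
        · exact Or.inl h1
        · exact absurd hkZ hm
    · exact Or.inl h

end

end Pool.Agent.TH683.LRC
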