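import Pool.Agent.TH683.LRC.OrcS

/-!
# The derivations of the grammar are derivations of the system
-/

set_option autoImplicit false

namespace Pool.Agent.TH683.LRC

open Relation

variable {T N : Type} {S : N} {PL PR : Finset (Rl T N)}

theorem conv (k : Option (Rx PR × Fin 3)) (a b : Kd) (U0 W0 : Finset (Kd × N))
    (hrule : ∀ Z : N, (((a, Z), [.nonterminal (b, Z)], U0, W0) : Rl T (Kd × N)) ∈ rulesOf PL PR k)
    (hb : ∀ B ∈ W0, B.1 ≠ b) : ∀ (u : List (Symbol T N)) (P R : List (Symbol T (Kd × N))),
      (∀ B ∈ U0, Symbol.nonterminal B ∈ P) → (∀ B ∈ W0, Symbol.nonterminal B ∉ P) →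
      ReflTransGen (MT (sysOf S PL PR) k) (P ++ (u.map (kd a) ++ R)) (P ++ (u.map (kd b) ++ R)) := by
  intro u
  induction u with
  | nil => intro P R _ _; exact ReflTransGen.refl
  | cons s u ih =>
    intro P R hU hW
    cases s with
    | terminal t =>
      have h1 := ih (P ++ [.terminal t]) R (fun B hB => List.mem_append_left _ (hU B hB))
        (fun B hB h => by
          rcases List.mem_append.1 h with h | h
          · exact hW B hB h
          · simp at h)
      simpa [kd] using h1
    | nonterminal Z =>
      have h1 := ih (P ++ [.nonterminal (b, Z)]) R (fun B hB => List.mem_append_left _ (hU B hB))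
        (fun B hB h => by
          rcases List.mem_append.1 h with h | h
          · exact hW B hB h
          · simp only [List.mem_singleton, Symbol.nonterminal.injEq] at h
            exact hb B hB (by rw [h]))
      have h2 : MT (sysOf S PL PR) k (P ++ ((Symbol.nonterminal Z :: u).map (kd a) ++ R))
          (P ++ [.nonterminal (b, Z)] ++ (u.map (kd a) ++ R)) :=
        ⟨P, u.map (kd a) ++ R, (a, Z), [.nonterminal (b, Z)], U0, W0, hrule Z, by simp [kd],
          by simp, hU, hW⟩
      refine ReflTransGen.head h2 ?_
      simpa [kd] using h1

theorem ticks_complete {y : List (Symbol T N)}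
    (h : ReflTransGen (GS PL PR) [Symbol.nonterminal S] y) :
    Ticks (sysOf S PL PR) none (y.map (kd .pl)) := by
  classical
  induction h with
  | refl =>
    have : Ticks (sysOf S PL PR) (sysOf S PL PR).q0 _ := Ticks.start
    exact this
  | tail _ hs ih =>
    obtain ⟨u, v, A, x, U, W, rfl, rfl, h | h⟩ := hs
    · refine Ticks.step (Z := sysOf S PL PR) none _ _ ih (ReflTransGen.single ?_) ⟨?_, ?_⟩
      · refine ⟨u.map (kd .pl), v.map (kd .pl), (.pl, A), x.map (kd .pl),
          U.image (fun B => (.pl, B)), W.image (fun B => (.pl, B)), ?_, by simp [kd], by simp, ?_, ?_⟩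
        · show _ ∈ rulesOf PL PR none
          unfold rulesOf
          exact ⟨_, h.1, by simp⟩
        · intro B hB
          obtain ⟨B', hB', rfl⟩ := Finset.mem_image.1 hB
          exact List.mem_map.2 ⟨_, h.2.1 B' hB', rfl⟩
        · intro B hB hmem
          obtain ⟨B', hB', rfl⟩ := Finset.mem_image.1 hB
          obtain ⟨s, hs, he⟩ := List.mem_map.1 hmem
          cases s with
          | terminal t => simp [kd] at he
          | nonterminal Z =>
            simp only [kd, Symbol.nonterminal.injEq, Prod.mk.injEq, true_and] at he
            subst he
            exact h.2.2 _ hB' hs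
      · intro B hB
        exact absurd hB (Set.notMem_empty B)
      · intro B hB
        exact absurd hB (Set.notMem_empty B)
    · set r : Rx PR := ⟨(A, x, U, W), h.1⟩ with hr
      -- the marking
      have t1 : Ticks (sysOf S PL PR) (some (r, false))
          (u.map (kd .pl) ++ .nonterminal (.m1, A) :: v.map (kd .pl)) := by
        refine Ticks.step (Z := sysOf S PL PR) (some (r, 0)) _ _ ih (ReflTransGen.single ?_)
          ⟨fun B hB => absurd hB (Set.notMem_empty B), fun B hB => absurd hB (Set.notMem_empty B)⟩
        exact ⟨u.map (kd .pl), v.map (kd .pl), (.pl, A), [.nonterminal (.m1, A)], ∅, ∅, rfl,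
          by simp [kd], by simp, by simp, by simp⟩
      -- bars and hats
      have t2 : Ticks (sysOf S PL PR) (some (r, true))
          (u.map (kd .br) ++ .nonterminal (.m2, A) :: v.map (kd .ht)) := by
        have hbr : ∀ k, k = .m1 ∨ k = .m2 → Symbol.nonterminal (k, A) ∉ u.map (kd Kd.br) := by
          intro k hk hmem
          obtain ⟨s, hs, he⟩ := List.mem_map.1 hmem
          cases s with
          | terminal t => simp [kd] at he
          | nonterminal Z =>
            simp only [kd, Symbol.nonterminal.injEq, Prod.mk.injEq] at he
            rcases hk with rfl | rfl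
            · exact absurd he.1 (by simp)
            · exact absurd he.1 (by simp)
        refine Ticks.step (Z := sysOf S PL PR) (some (r, 1)) _ _ t1 ?_ ⟨?_, ?_⟩
        · have s1 := conv (S := S) (PL := PL) (some (r, 1)) .pl .br ∅ {(.m1, A), (.m2, A)}
            (fun Z => Or.inl (Or.inl ⟨Z, rfl⟩)) (by simp) u []
            (.nonterminal (.m1, A) :: v.map (kd .pl)) (by simp) (by simp)
          have s2 := conv (S := S) (PL := PL) (some (r, 1)) .pl .ht {(.m1, A)} ∅
            (fun Z => Or.inl (Or.inr ⟨Z, rfl⟩)) (by simp) v
            (u.map (kd .br) ++ [.nonterminal (.m1, A)]) [] (by simp) (by simp)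
          have s3 : MT (sysOf S PL PR) (some (r, 1))
              (u.map (kd .br) ++ .nonterminal (.m1, A) :: v.map (kd .ht))
              (u.map (kd .br) ++ .nonterminal (.m2, A) :: v.map (kd .ht)) :=
            ⟨u.map (kd .br), v.map (kd .ht), (.m1, A), [.nonterminal (.m2, A)], ∅,
              ({(Kd.m1, A), (Kd.m2, A)} : Finset (Kd × N)), Or.inr rfl, by simp, by simp, by simp, by
                intro B hB
                simp only [Finset.mem_insert, Finset.mem_singleton] at hB
                rcases hB with rfl | rfl
                · exact hbr _ (Or.inl rfl)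
                · exact hbr _ (Or.inr rfl)⟩
          simp only [List.nil_append, List.append_nil, List.append_assoc,
            List.singleton_append] at s1 s2
          exact (s1.trans s2).tail s3
        · rintro ⟨k, B⟩ (hB | ⟨hk, hB⟩)
          · simp only [Prod.mk.injEq] at hB
            rw [hB.1, hB.2]
            simp [hr]
          · have hk' : k = .ht := hk
            subst hk'
            have := h.2.1 B hB
            rw [List.mem_append]
            right
            exact List.mem_cons_of_mem _ (List.mem_map.2 ⟨_, this, rfl⟩)
        · rintro ⟨k, B⟩ (hB | ⟨hk, hB⟩) hmem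
          · simp only [Prod.mk.injEq] at hB
            rw [hB.1] at hmem
            rcases List.mem_append.1 hmem with h1 | h1
            · obtain ⟨s, hs, he⟩ := List.mem_map.1 h1
              cases s <;> simp [kd] at he
            · rcases List.mem_cons.1 h1 with h1 | h1
              · simp at h1
              · obtain ⟨s, hs, he⟩ := List.mem_map.1 h1
                cases s <;> simp [kd] at he
          · have hk' : k = .pl ∨ k = .ht := hk
            rcases List.mem_append.1 hmem with h1 | h1
            · obtain ⟨s, hs, he⟩ := List.mem_map.1 h1
              cases s with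
              | terminal t => simp [kd] at he
              | nonterminal Z =>
                simp only [kd, Symbol.nonterminal.injEq, Prod.mk.injEq] at he
                rcases hk' with rfl | rfl
                · exact absurd he.1 (by simp)
                · exact absurd he.1 (by simp)
            · rcases List.mem_cons.1 h1 with h1 | h1
              · simp only [Symbol.nonterminal.injEq, Prod.mk.injEq] at h1
                rcases hk' with rfl | rfl
                · exact absurd h1.1 (by simp)
                · exact absurd h1.1 (by simp)
              · obtain ⟨s, hs, he⟩ := List.mem_map.1 h1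
                cases s with
                | terminal t => simp [kd] at he
                | nonterminal Z =>
                  simp only [kd, Symbol.nonterminal.injEq, Prod.mk.injEq] at he
                  rw [he.2] at hs
                  exact h.2.2 B hB hs
      -- restoring and applying
      have t3 : Ticks (sysOf S PL PR) none
          (u.map (kd .pl) ++ (x.map (kd .pl) ++ v.map (kd .pl))) := by
        refine Ticks.step (Z := sysOf S PL PR) (some (r, 2)) _ _ t2 ?_ ⟨?_, ?_⟩
        · have s1 := conv (S := S) (PL := PL) (some (r, 2)) .br .pl ∅ ∅
            (fun Z => Or.inl (Or.inl ⟨Z, rfl⟩)) (by simp) u []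
            (.nonterminal (.m2, A) :: v.map (kd .ht)) (by simp) (by simp)
          have s2 := conv (S := S) (PL := PL) (some (r, 2)) .ht .pl ∅ ∅
            (fun Z => Or.inl (Or.inr ⟨Z, rfl⟩)) (by simp) v
            (u.map (kd .pl) ++ [.nonterminal (.m2, A)]) [] (by simp) (by simp)
          have s3 : MT (sysOf S PL PR) (some (r, 2))
              (u.map (kd .pl) ++ .nonterminal (.m2, A) :: v.map (kd .pl))
              (u.map (kd .pl) ++ (x.map (kd .pl) ++ v.map (kd .pl))) :=
            ⟨u.map (kd .pl), v.map (kd .pl), (.m2, A), x.map (kd .pl), ∅, ∅, Or.inr rfl,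
              rfl, rfl, by simp, by simp⟩
          simp only [List.nil_append, List.append_nil, List.append_assoc,
            List.singleton_append] at s1 s2
          exact (s1.trans s2).tail s3
        · intro B hB
          exact absurd hB (Set.notMem_empty B)
        · rintro ⟨k, B⟩ hB hmem
          have hB' : k = .br ∨ k = .ht ∨ k = .m2 := hB
          rw [← List.map_append, ← List.map_append] at hmem
          obtain ⟨s, hs, he⟩ := List.mem_map.1 hmem
          cases s with
          | terminal t => simp [kd] at he
          | nonterminal Z =>
            simp only [kd, Symbol.nonterminal.injEq, Prod.mk.injEq] at he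
            rcases hB' with rfl | rfl | rfl
            · exact absurd he.1 (by simp)
            · exact absurd he.1 (by simp)
            · exact absurd he.1 (by simp)
      simpa using t3

/-- **The theorem.** -/
theorem main (T N : Type) [Finite N] (S : N) (PL PR : Finset (Rl T N)) :
    ∃ (N' : Type), Finite N' ∧ ∃ (S' : N') (P : Finset (Rl T N')), ∀ w : List T,
      ReflTransGen (GS PL PR) [Symbol.nonterminal S] (w.map Symbol.terminal) ↔
      ReflTransGen (fun (α β : List (Symbol T N')) =>
        ∃ (u v : List (Symbol T N')) (A : N') (x : List (Symbol T N'))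
          (U W : Finset N'), α = u ++ [Symbol.nonterminal A] ++ v ∧ β = u ++ x ++ v ∧
          ((A, x, U, W) ∈ P ∧ (∀ B ∈ U, Symbol.nonterminal B ∈ u) ∧
            (∀ B ∈ W, Symbol.nonterminal B ∉ u))) [Symbol.nonterminal S']
        (w.map Symbol.terminal) := by
  obtain ⟨P, hP⟩ := exists_grammar (sysOf S PL PR) (fun k => rulesOf_finite PL PR k)
  refine ⟨NN (Kd × N) (Option (Rx PR × Bool)) (Option (Rx PR × Fin 3)), inferInstance,
    NN.gen (sysOf S PL PR).q0, P, fun w => ?_⟩
  rw [hP w]
  have hw : ((w.map Symbol.terminal : List (Symbol T N)).map (kd .pl)) =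
      w.map Symbol.terminal := by
    rw [List.map_map]
    rfl
  constructor
  · intro h
    have := ticks_complete (S := S) h
    rw [hw] at this
    exact this
  · intro h
    have h1 := (ticks_sound h).1
    rw [List.map_map] at h1
    exact h1

end Pool.Agent.TH683.LRC
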