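import Pool.Agent.TH683.LRC.Orc

/-!
# The derivations of the system are derivations of the grammar
-/

set_option autoImplicit false

namespace Pool.Agent.TH683.LRC

open Relation

variable {T N : Type} {S : N} {PL PR : Finset (Rl T N)}

theorem split2 {α : Type} (l rr u v : List α) (s t : α) (h : l ++ t :: rr = u ++ s :: v) :
    (∃ a, l = u ++ s :: a ∧ v = a ++ t :: rr) ∨ (u = l ∧ s = t ∧ v = rr) ∨
    (∃ c, u = l ++ t :: c ∧ rr = c ++ s :: v) := by
  rcases split3 l [t] rr u v s (by simpa using h) with ⟨a2, h1, h2⟩ | ⟨b1, b2, h1, h2, h3⟩ |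
    ⟨c1, h1, h2⟩
  · exact Or.inl ⟨a2, h1, by simpa using h2⟩
  · right; left
    cases b1 with
    | nil =>
      simp only [List.nil_append, List.cons.injEq] at h1
      refine ⟨by simpa using h2, h1.1.symm, ?_⟩
      rw [h3, ← h1.2]
      rfl
    | cons x b1 => simp at h1
  · exact Or.inr (Or.inr ⟨c1, by simpa using h2, h1⟩)

/-- a change of the kind of one symbol -/
theorem und_same {u v : List (Symbol T (Kd × N))} {k k' : Kd} {Z : N} :
    (u ++ Symbol.nonterminal (k, Z) :: v).map und =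
      (u ++ ([Symbol.nonterminal (k', Z)] ++ v)).map (und : _ → Symbol T N) := by
  simp [und]

theorem pp_none {α β : List (Symbol T (Kd × N))} (h : MT (sysOf S PL PR) none α β)
    (hα : PP PR none α) :
    (α.map und = β.map und ∨ GS PL PR (α.map und) (β.map und)) ∧ PP PR none β := by
  classical
  obtain ⟨u, v, A, x, U, W, hin, rfl, rfl, hU, hW⟩ := h
  obtain ⟨σ, hσ, he⟩ := hin
  simp only [Prod.mk.injEq] at he
  obtain ⟨rfl, rfl, rfl, rfl⟩ := he
  have hα' : KIn (fun k _ => k = .pl) (u ++ Symbol.nonterminal (.pl, σ.1) :: v) := hα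
  rw [KIn.append, KIn.cons] at hα'
  refine ⟨Or.inr ⟨u.map und, v.map und, σ.1, σ.2.1, σ.2.2.1, σ.2.2.2, ?_, ?_,
    Or.inl ⟨hσ, ?_, ?_⟩⟩, ?_⟩
  · simp [und]
  · rw [List.map_append, List.map_append, und_kd_map, List.append_assoc]
  · intro B hB
    exact und_mem (hU (.pl, B) (Finset.mem_image_of_mem _ hB))
  · intro B hB hmem
    obtain ⟨k, hk⟩ := mem_und hmem
    have := hα'.1 k B hk
    subst this
    exact hW (.pl, B) (Finset.mem_image_of_mem _ hB) hk
  · show KIn _ _
    rw [KIn.append, KIn.append]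
    exact ⟨hα'.1, KIn.kd _ _ fun _ => rfl, hα'.2.2⟩

theorem pp_zero {r : Rx PR} {α β : List (Symbol T (Kd × N))}
    (h : MT (sysOf S PL PR) (some (r, 0)) α β) (hα : PP PR (some (r, 0)) α) :
    (α.map und = β.map und ∨ GS PL PR (α.map und) (β.map und)) ∧ PP PR (some (r, 0)) β := by
  obtain ⟨u, v, A, x, U, W, hin, rfl, rfl, hU, hW⟩ := h
  have he : ((A, x, U, W) : Rl T (Kd × N)) =
      ((.pl, r.1.1), [.nonterminal (.m1, r.1.1)], ∅, ∅) := hin
  simp only [Prod.mk.injEq] at he
  obtain ⟨rfl, rfl, rfl, rfl⟩ := he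
  have hα' : KIn (fun k Z => k = .pl ∨ (k = .m1 ∧ Z = r.1.1))
    (u ++ Symbol.nonterminal (.pl, r.1.1) :: v) := hα
  rw [KIn.append, KIn.cons] at hα'
  refine ⟨Or.inl und_same, ?_⟩
  show KIn _ (u ++ Symbol.nonterminal (.m1, r.1.1) :: v)
  rw [KIn.append, KIn.cons]
  exact ⟨hα'.1, Or.inr ⟨rfl, rfl⟩, hα'.2.2⟩

open Classical in
theorem pp_one {r : Rx PR} {α β : List (Symbol T (Kd × N))}
    (h : MT (sysOf S PL PR) (some (r, 1)) α β) (hα : PP PR (some (r, 1)) α) :
    (α.map und = β.map und ∨ GS PL PR (α.map und) (β.map und)) ∧ PP PR (some (r, 1)) β := by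
  obtain ⟨u, v, A, x, U, W, hin, rfl, rfl, hU, hW⟩ := h
  have hin' : ((A, x, U, W) : Rl T (Kd × N)) ∈ rulesOf PL PR (some (r, 1)) := hin
  rcases hin' with (⟨Z, he⟩ | ⟨Z, he⟩) | he
  · simp only [Prod.mk.injEq] at he
    obtain ⟨rfl, rfl, rfl, rfl⟩ := he
    refine ⟨Or.inl und_same, ?_⟩
    have hno : ∀ k : Kd, (k = .m1 ∨ k = .m2) → Symbol.nonterminal (k, r.1.1) ∉ u := by
      rintro k (rfl | rfl)
      · exact hW _ (by simp)
      · exact hW _ (by simp)
    rcases hα with hα | ⟨l, k, rr, hk, he, hl, hr⟩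
    · left
      show KIn _ (u ++ Symbol.nonterminal (.br, Z) :: v)
      rw [KIn.append, KIn.cons] at hα ⊢
      exact ⟨hα.1, Or.inr rfl, hα.2.2⟩
    · right
      rcases split2 l rr u v _ _ he.symm with ⟨a, rfl, rfl⟩ | ⟨rfl, h1, rfl⟩ | ⟨c, rfl, rfl⟩
      · refine ⟨u ++ Symbol.nonterminal (.br, Z) :: a, k, rr, hk, by simp, ?_, hr⟩
        rw [KIn.append, KIn.cons] at hl ⊢
        exact ⟨hl.1, Or.inr rfl, hl.2.2⟩
      · simp only [Symbol.nonterminal.injEq, Prod.mk.injEq] at h1
        rcases hk with rfl | rfl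
        · exact absurd h1.1 (by simp)
        · exact absurd h1.1 (by simp)
      · exact absurd (by simp) (hno k hk)
  · simp only [Prod.mk.injEq] at he
    obtain ⟨rfl, rfl, rfl, rfl⟩ := he
    refine ⟨Or.inl und_same, ?_⟩
    have hm := hU (.m1, r.1.1) (by simp)
    rcases hα with hα | ⟨l, k, rr, hk, he, hl, hr⟩
    · rw [KIn.append] at hα
      exact absurd (hα.1 _ _ hm) (by simp)
    · right
      rcases split2 l rr u v _ _ he.symm with ⟨a, rfl, rfl⟩ | ⟨rfl, h1, rfl⟩ | ⟨c, rfl, rfl⟩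
      · rw [KIn.append] at hl
        exact absurd (hl.1 _ _ hm) (by simp)
      · simp only [Symbol.nonterminal.injEq, Prod.mk.injEq] at h1
        rcases hk with rfl | rfl
        · exact absurd h1.1 (by simp)
        · exact absurd h1.1 (by simp)
      · refine ⟨l, k, c ++ Symbol.nonterminal (.ht, Z) :: v, hk, by simp, hl, ?_⟩
        rw [KIn.append, KIn.cons] at hr ⊢
        exact ⟨hr.1, Or.inr (Or.inl rfl), hr.2.2⟩
  · have he' : ((A, x, U, W) : Rl T (Kd × N)) =
      ((.m1, r.1.1), [.nonterminal (.m2, r.1.1)], ∅, {(.m1, r.1.1), (.m2, r.1.1)}) := he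
    simp only [Prod.mk.injEq] at he'
    obtain ⟨rfl, rfl, rfl, rfl⟩ := he'
    refine ⟨Or.inl und_same, ?_⟩
    have hno : ∀ k : Kd, (k = .m1 ∨ k = .m2) → Symbol.nonterminal (k, r.1.1) ∉ u := by
      rintro k (rfl | rfl)
      · exact hW _ (by simp)
      · exact hW _ (by simp)
    rcases hα with hα | ⟨l, k, rr, hk, he, hl, hr⟩
    · rw [KIn.append, KIn.cons] at hα
      exact absurd hα.2.1 (by simp)
    · right
      rcases split2 l rr u v _ _ he.symm with ⟨a, rfl, rfl⟩ | ⟨rfl, h1, rfl⟩ | ⟨c, rfl, rfl⟩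
      · rw [KIn.append, KIn.cons] at hl
        exact absurd hl.2.1 (by simp)
      · exact ⟨u, .m2, v, Or.inr rfl, rfl, hl, hr⟩
      · exact absurd (by simp) (hno k hk)

open Classical in
theorem pp_two {r : Rx PR} {α β : List (Symbol T (Kd × N))}
    (h : MT (sysOf S PL PR) (some (r, 2)) α β) (hα : PP PR (some (r, 2)) α) :
    (α.map und = β.map und ∨ GS PL PR (α.map und) (β.map und)) ∧ PP PR (some (r, 2)) β := by
  obtain ⟨u, v, A, x, U, W, hin, rfl, rfl, hU, hW⟩ := h
  have hin' : ((A, x, U, W) : Rl T (Kd × N)) ∈ rulesOf PL PR (some (r, 2)) := hin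
  have conv : ∀ (k : Kd) (Z : N), (k = .br ∨ k = .ht) →
      PP PR (some (r, 2)) (u ++ Symbol.nonterminal (k, Z) :: v) →
      PP PR (some (r, 2)) (u ++ ([Symbol.nonterminal (.pl, Z)] ++ v)) := by
    rintro k Z hk (⟨l, rr, he, hl, hr, hc⟩ | hα)
    · left
      rcases split2 l rr u v _ _ he.symm with ⟨a, rfl, rfl⟩ | ⟨rfl, h1, rfl⟩ | ⟨c, rfl, rfl⟩
      · refine ⟨u ++ Symbol.nonterminal (.pl, Z) :: a, rr, by simp, ?_, hr, hc⟩
        rw [KIn.append, KIn.cons] at hl ⊢
        exact ⟨hl.1, Or.inl rfl, hl.2.2⟩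
      · simp only [Symbol.nonterminal.injEq, Prod.mk.injEq] at h1
        rcases hk with rfl | rfl
        · exact absurd h1.1 (by simp)
        · exact absurd h1.1 (by simp)
      · refine ⟨l, c ++ Symbol.nonterminal (.pl, Z) :: v, by simp, hl, ?_, ?_⟩
        · rw [KIn.append, KIn.cons] at hr ⊢
          exact ⟨hr.1, Or.inl rfl, hr.2.2⟩
        · have : (c ++ Symbol.nonterminal (.pl, Z) :: v).map (und : _ → Symbol T N) =
              (c ++ Symbol.nonterminal (k, Z) :: v).map und := by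
            simp [und]
          rw [this]
          exact hc
    · right
      show KIn _ (u ++ Symbol.nonterminal (.pl, Z) :: v)
      rw [KIn.append, KIn.cons] at hα ⊢
      exact ⟨hα.1, Or.inl rfl, hα.2.2⟩
  rcases hin' with (⟨Z, he⟩ | ⟨Z, he⟩) | he
  · simp only [Prod.mk.injEq] at he
    obtain ⟨rfl, rfl, rfl, rfl⟩ := he
    exact ⟨Or.inl und_same, conv _ _ (Or.inl rfl) hα⟩
  · simp only [Prod.mk.injEq] at he
    obtain ⟨rfl, rfl, rfl, rfl⟩ := he
    exact ⟨Or.inl und_same, conv _ _ (Or.inr rfl) hα⟩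
  · have he' : ((A, x, U, W) : Rl T (Kd × N)) =
      ((.m2, r.1.1), r.1.2.1.map (kd .pl), ∅, ∅) := he
    simp only [Prod.mk.injEq] at he'
    obtain ⟨rfl, rfl, rfl, rfl⟩ := he'
    rcases hα with ⟨l, rr, he, hl, hr, hc⟩ | hα
    · rcases split2 l rr u v _ _ he.symm with ⟨a, rfl, rfl⟩ | ⟨rfl, _, rfl⟩ | ⟨c, rfl, rfl⟩
      · rw [KIn.append, KIn.cons] at hl
        exact absurd hl.2.1 (by simp)
      · refine ⟨Or.inr ⟨u.map und, v.map und, r.1.1, r.1.2.1, r.1.2.2.1, r.1.2.2.2, ?_, ?_,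
          Or.inr ⟨r.2, hc.1, hc.2⟩⟩, Or.inr ?_⟩
        · simp [und]
        · rw [List.map_append, List.map_append, und_kd_map, List.append_assoc]
        · rw [KIn.append, KIn.append]
          exact ⟨hl.mono fun k Z h => h.imp_right Or.inl, KIn.kd _ _ fun _ => Or.inl rfl,
            hr.mono fun k Z h => h.imp_right Or.inr⟩
      · rw [KIn.append, KIn.cons] at hr
        exact absurd hr.2.1 (by simp)
    · rw [KIn.append, KIn.cons] at hα
      exact absurd hα.2.1 (by simp)

theorem pp_step {k : Option (Rx PR × Fin 3)} {α β : List (Symbol T (Kd × N))}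
    (h : MT (sysOf S PL PR) k α β) (hα : PP PR k α) :
    (α.map und = β.map und ∨ GS PL PR (α.map und) (β.map und)) ∧ PP PR k β := by
  rcases k with _ | ⟨r, i⟩
  · exact pp_none h hα
  · fin_cases i
    · exact pp_zero h hα
    · exact pp_one h hα
    · exact pp_two h hα

theorem pp_chk {k : Option (Rx PR × Fin 3)} {β : List (Symbol T (Kd × N))}
    (h : PP PR k β) (hc : Chk (sysOf S PL PR) k β) : MM PR (dstOf PR k) β := by
  rcases k with _ | ⟨r, i⟩
  · exact h
  · fin_cases i
    · exact h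
    · have h' : PP PR (some (r, 1)) β := h
      have hcu : ∀ B ∈ cuOf PR (some (r, 1)), Symbol.nonterminal B ∈ β := hc.1
      have hcw : ∀ B ∈ cwOf PR (some (r, 1)), Symbol.nonterminal B ∉ β := hc.2
      have h2 := hcu (.m2, r.1.1) (Or.inl rfl)
      have h1 := hcw (.m1, r.1.1) (Or.inl rfl)
      rcases h' with h' | ⟨l, k, rr, hk, rfl, hl, hr⟩
      · exact absurd (h' _ _ h2) (by simp)
      · have hk2 : k = .m2 := by
          rcases hk with rfl | rfl
          · exact absurd (by simp) h1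
          · rfl
        subst hk2
        have hr' : KIn (fun k _ => k = .pl ∨ k = .ht) rr := by
          intro k Z hkZ
          rcases hr k Z hkZ with h3 | h3 | ⟨rfl, rfl⟩
          · exact Or.inl h3
          · exact Or.inr h3
          · exact absurd (by simp [hkZ]) h1
        refine ⟨l, rr, rfl, hl, hr', ?_, ?_⟩
        · intro B hB
          have h3 := hcu (.ht, B) (Or.inr ⟨rfl, hB⟩)
          rcases List.mem_append.1 h3 with h3 | h3
          · exact absurd (hl _ _ h3) (by simp)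
          · rcases List.mem_cons.1 h3 with h3 | h3
            · simp at h3
            · exact und_mem h3
        · intro B hB hmem
          obtain ⟨k, hk⟩ := mem_und hmem
          exact hcw (k, B) (Or.inr ⟨hr' k B hk, hB⟩) (by simp [hk])
    · have h' : PP PR (some (r, 2)) β := h
      have hcw : ∀ B ∈ cwOf PR (some (r, 2)), Symbol.nonterminal B ∉ β := hc.2
      show KIn _ _
      rcases h' with ⟨l, rr, rfl, _⟩ | h'
      · exact absurd (by simp) (hcw (.m2, r.1.1) (Or.inr (Or.inr rfl)))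
      · intro k Z hkZ
        rcases h' k Z hkZ with h3 | rfl | rfl
        · exact h3
        · exact absurd hkZ (hcw _ (Or.inl rfl))
        · exact absurd hkZ (hcw _ (Or.inr (Or.inl rfl)))

theorem ticks_sound {q : Option (Rx PR × Bool)} {ms : List (Symbol T (Kd × N))}
    (h : Ticks (sysOf S PL PR) q ms) :
    ReflTransGen (GS PL PR) [Symbol.nonterminal S] (ms.map und) ∧ MM PR q ms := by
  induction h with
  | start =>
    refine ⟨ReflTransGen.refl, ?_⟩
    show KIn _ [Symbol.nonterminal ((.pl, S) : Kd × N)]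
    rw [KIn.cons]
    exact ⟨rfl, fun k Z h => absurd h (by simp)⟩
  | step k α β _ h hc ih =>
    have key : ReflTransGen (GS PL PR) [Symbol.nonterminal S] (β.map und) ∧ PP PR k β := by
      clear hc
      induction h with
      | refl => exact ⟨ih.1, MM_PP ih.2⟩
      | tail _ hs ih2 =>
        obtain ⟨h1, h2⟩ := pp_step hs ih2.2
        rcases h1 with h1 | h1
        · exact ⟨by rw [← h1]; exact ih2.1, h2⟩
        · exact ⟨ih2.1.tail h1, h2⟩
    exact ⟨key.1, pp_chk key.2 hc⟩

end Pool.Agent.TH683.LRC
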