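import Pool.Agent.TH683.LRC.Engine

/-!
# Soundness of the simulation of the phases
-/

set_option autoImplicit false

namespace Pool.Agent.TH683.LRC

open Relation

variable {T D Q K : Type}

/-- chains of phases -/
inductive Chn (Z : Sys T D Q K) : Q → List K → Q → Prop
  | nil (q : Q) : Chn Z q [] q
  | cons (k : K) (ws : List K) (q' : Q) : Chn Z (Z.dst k) ws q' → Chn Z (Z.src k) (k :: ws) q'

theorem Chn.snoc {Z : Sys T D Q K} {q q' : Q} {ws : List K} (h : Chn Z q ws q') :
    ∀ k : K, q' = Z.src k → Chn Z q (ws ++ [k]) (Z.dst k) := by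
  induction h with
  | nil q =>
    intro k hk
    subst hk
    exact Chn.cons k [] _ (Chn.nil _)
  | cons k ws q' _ ih =>
    intro k' hk'
    exact Chn.cons k _ _ (ih k' hk')

theorem Chn.cons_inv {Z : Sys T D Q K} {q q' : Q} {k : K} {ws : List K}
    (h : Chn Z q (k :: ws) q') : q = Z.src k ∧ Chn Z (Z.dst k) ws q' := by
  cases h with
  | cons _ _ _ h => exact ⟨rfl, h⟩

theorem Chn.nil_inv {Z : Sys T D Q K} {q q' : Q} (h : Chn Z q [] q') : q = q' := by
  cases h
  rfl

/-- the number of receipts that the active instruction can still serve -/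
def av : Option (K × Bool) → Bool → ℕ
  | none, _ => 0
  | some (_, false), _ => 1
  | some (_, true), b => if b then 1 else 0

/-- the forms during the phase `k` -/
def Dd (Z : Sys T D Q K) (k : K) (ms : List (Symbol T D)) : Prop :=
  ∃ ms0, Ticks Z (Z.src k) ms0 ∧ ReflTransGen (MT Z k) ms0 ms

/-- the synchronized forms with a generator -/
def GoodPre (Z : Sys T D Q K) : Option (K × Bool) → List K → Q → Prop
  | none, ws, q => Chn Z Z.q0 ws q
  | some (k, false), ws, q => Chn Z Z.q0 (k :: ws) q
  | some (_, true), _, _ => False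

/-- the synchronized forms without a generator -/
def GoodPost (Z : Sys T D Q K) : Option (K × Bool) → List K → List (Symbol T D) → Bool → Prop
  | none, ws, ms, b => b = false ∧ ∃ q, Chn Z q ws Z.q0 ∧ Ticks Z q ms
  | some (k, false), ws, ms, _ => Chn Z (Z.dst k) ws Z.q0 ∧ Dd Z k ms
  | some (k, true), ws, ms, b => Chn Z (Z.dst k) ws Z.q0 ∧ (b = true → Dd Z k ms) ∧
      (b = false → Ticks Z (Z.dst k) ms)

/-- The invariant. -/
inductive Inv (Z : Sys T D Q K) : List (Symbol T (NN D Q K)) → Prop
  | pre (a : Option (K × Bool)) (ws : List K) (q : Q) (n : ℕ)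
      (h : ws.length + av a false < n ∨ (ws.length + av a false = n ∧ GoodPre Z a ws q)) :
      Inv Z (Ip a ws ++ ([.nonterminal (.gen q)] ++ Rp false n))
  | post (a : Option (K × Bool)) (ws : List K) (ms : List (Symbol T D)) (b : Bool) (n : ℕ)
      (h : ws.length + av a b < n + (if b then 1 else 0) ∨
        (ws.length + av a b = n + (if b then 1 else 0) ∧ GoodPost Z a ws ms b)) :
      Inv Z (Ip a ws ++ (ms.map emb ++ Rp b n))

theorem mem_emb {ms : List (Symbol T D)} {X : NN D Q K}
    (h : (.nonterminal X : Symbol T (NN D Q K)) ∈ ms.map emb) :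
    ∃ d, X = .md d ∧ .nonterminal d ∈ ms := by
  obtain ⟨s, hs, h⟩ := List.mem_map.1 h
  cases s with
  | terminal t => simp [emb] at h
  | nonterminal d =>
    simp only [emb, Symbol.nonterminal.injEq] at h
    exact ⟨d, h.symm, hs⟩

theorem split_emb {ms : List (Symbol T D)} {b1 b2 : List (Symbol T (NN D Q K))} {A : D}
    (h : ms.map emb = b1 ++ .nonterminal (.md A) :: b2) :
    ∃ m1 m2, ms = m1 ++ .nonterminal A :: m2 ∧ b1 = m1.map emb ∧ b2 = m2.map emb := by
  obtain ⟨m1, m', rfl, h1, h2⟩ := List.map_eq_append_iff.1 h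
  obtain ⟨s, m2, rfl, h3, h4⟩ := List.map_eq_cons_iff.1 h2
  refine ⟨m1, m2, ?_, h1.symm, h4.symm⟩
  rw [← emb_nt] at h3
  rw [emb_inj h3]

theorem Ip_snoc (a : Option (K × Bool)) (ws : List K) (k : K) :
    (Ip a (ws ++ [k]) : List (Symbol T (NN D Q K))) = Ip a ws ++ [.nonterminal (.ins k 0)] := by
  rcases a with _ | ⟨k', _ | _⟩ <;> simp [Ip]

theorem Rp_succ (n : ℕ) : (Rp false (n + 1) : List (Symbol T (NN D Q K))) =
    .nonterminal (.rc false) :: Rp false n := by
  simp [Rp, List.replicate_succ]

theorem Rp_true (n : ℕ) : (Rp true n : List (Symbol T (NN D Q K))) =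
    .nonterminal (.rc true) :: Rp false n := by
  simp [Rp]

/-- where a generator can be -/
theorem loc_gen {a : Option (K × Bool)} {ws : List K} {mid u v : List (Symbol T (NN D Q K))}
    {b : Bool} {n : ℕ} {q : Q} (h : Ip a ws ++ (mid ++ Rp b n) = u ++ .nonterminal (.gen q) :: v) :
    ∃ b1 b2, mid = b1 ++ .nonterminal (.gen q) :: b2 ∧ u = Ip a ws ++ b1 ∧ v = b2 ++ Rp b n := by
  rcases split3 _ _ _ _ _ _ h with ⟨a2, h1, _⟩ | h1 | ⟨c1, h1, _⟩
  · exfalso
    have : (.nonterminal (.gen q) : Symbol T (NN D Q K)) ∈ Ip a ws := by rw [h1]; simp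
    obtain ⟨k, i, h2⟩ := mem_Ip this
    simp at h2
  · exact h1
  · exfalso
    have : (.nonterminal (.gen q) : Symbol T (NN D Q K)) ∈ Rp b n := by rw [h1]; simp
    obtain ⟨b', h2⟩ := mem_Rp this
    simp at h2

theorem loc_md {a : Option (K × Bool)} {ws : List K} {mid u v : List (Symbol T (NN D Q K))}
    {b : Bool} {n : ℕ} {d : D} (h : Ip a ws ++ (mid ++ Rp b n) = u ++ .nonterminal (.md d) :: v) :
    ∃ b1 b2, mid = b1 ++ .nonterminal (.md d) :: b2 ∧ u = Ip a ws ++ b1 ∧ v = b2 ++ Rp b n := by
  rcases split3 _ _ _ _ _ _ h with ⟨a2, h1, _⟩ | h1 | ⟨c1, h1, _⟩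
  · exfalso
    have : (.nonterminal (.md d) : Symbol T (NN D Q K)) ∈ Ip a ws := by rw [h1]; simp
    obtain ⟨k, i, h2⟩ := mem_Ip this
    simp at h2
  · exact h1
  · exfalso
    have : (.nonterminal (.md d) : Symbol T (NN D Q K)) ∈ Rp b n := by rw [h1]; simp
    obtain ⟨b', h2⟩ := mem_Rp this
    simp at h2

/-- middle parts -/
def Mid (mid : List (Symbol T (NN D Q K))) : Prop :=
  (∃ q, mid = [.nonterminal (.gen q)]) ∨ ∃ ms : List (Symbol T D), mid = ms.map emb

theorem not_ins {mid : List (Symbol T (NN D Q K))} (hm : Mid mid) (k : K) (i : Fin 3) :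
    (.nonterminal (.ins k i) : Symbol T (NN D Q K)) ∉ mid := by
  rcases hm with ⟨q, rfl⟩ | ⟨ms, rfl⟩
  · simp
  · intro h
    obtain ⟨d, h, _⟩ := mem_emb h
    simp at h

theorem not_rc {mid : List (Symbol T (NN D Q K))} (hm : Mid mid) (b : Bool) :
    (.nonterminal (.rc b) : Symbol T (NN D Q K)) ∉ mid := by
  rcases hm with ⟨q, rfl⟩ | ⟨ms, rfl⟩
  · simp
  · intro h
    obtain ⟨d, h, _⟩ := mem_emb h
    simp at h

theorem loc_ins {a : Option (K × Bool)} {ws : List K} {mid u v : List (Symbol T (NN D Q K))}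
    {b : Bool} {n : ℕ} {k : K} {i : Fin 3} (hm : Mid mid)
    (h : Ip a ws ++ (mid ++ Rp b n) = u ++ .nonterminal (.ins k i) :: v) :
    ∃ a2, Ip a ws = u ++ .nonterminal (.ins k i) :: a2 ∧ v = a2 ++ (mid ++ Rp b n) := by
  rcases split3 _ _ _ _ _ _ h with h1 | ⟨b1, b2, h1, _⟩ | ⟨c1, h1, _⟩
  · exact h1
  · exfalso
    exact not_ins hm k i (by rw [h1]; simp)
  · exfalso
    have : (.nonterminal (.ins k i) : Symbol T (NN D Q K)) ∈ Rp b n := by rw [h1]; simp
    obtain ⟨b', h2⟩ := mem_Rp this
    simp at h2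

theorem loc_rc {a : Option (K × Bool)} {ws : List K} {mid u v : List (Symbol T (NN D Q K))}
    {b b' : Bool} {n : ℕ} (hm : Mid mid)
    (h : Ip a ws ++ (mid ++ Rp b n) = u ++ .nonterminal (.rc b') :: v) :
    ∃ c1, Rp b n = c1 ++ .nonterminal (.rc b') :: v ∧ u = Ip a ws ++ (mid ++ c1) := by
  rcases split3 _ _ _ _ _ _ h with ⟨a2, h1, _⟩ | ⟨b1, b2, h1, _⟩ | h1
  · exfalso
    have : (.nonterminal (.rc b') : Symbol T (NN D Q K)) ∈ Ip a ws := by rw [h1]; simp
    obtain ⟨k, i, h2⟩ := mem_Ip this
    simp at h2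
  · exfalso
    exact not_rc hm b' (by rw [h1]; simp)
  · exact h1

theorem emb_ne_gen {ms : List (Symbol T D)} {b1 b2 : List (Symbol T (NN D Q K))} {q : Q} :
    ms.map emb ≠ b1 ++ .nonterminal (.gen q) :: b2 := by
  intro h
  have : (.nonterminal (.gen q) : Symbol T (NN D Q K)) ∈ ms.map emb := by rw [h]; simp
  obtain ⟨d, h, _⟩ := mem_emb this
  simp at h

theorem single_gen {b1 b2 : List (Symbol T (NN D Q K))} {q : Q} {X : Symbol T (NN D Q K)}
    (h : [.nonterminal (.gen q)] = b1 ++ X :: b2) :
    b1 = [] ∧ b2 = [] ∧ X = .nonterminal (.gen q) := by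
  cases b1 with
  | nil =>
    simp only [List.nil_append, List.cons.injEq] at h
    exact ⟨rfl, h.2.symm, h.1.symm⟩
  | cons s b1 => simp at h

theorem inv_step {Z : Sys T D Q K} {α β : List (Symbol T (NN D Q K))} (hα : Inv Z α)
    (h : Step Z α β) : Inv Z β := by
  obtain ⟨u, v, A, x, U, W, hr, hαu, rfl, hU, hW⟩ := h
  have hMpre : ∀ q, Mid [(.nonterminal (.gen q) : Symbol T (NN D Q K))] := fun q => Or.inl ⟨q, rfl⟩
  have hMpost : ∀ ms : List (Symbol T D), Mid (ms.map emb : List (Symbol T (NN D Q K))) :=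
    fun ms => Or.inr ⟨ms, rfl⟩
  cases hα with
  | pre a ws q n h =>
    cases hr with
    | gen k =>
      obtain ⟨b1, b2, h1, rfl, rfl⟩ := loc_gen hαu
      obtain ⟨rfl, rfl, h2⟩ := single_gen h1
      simp only [Symbol.nonterminal.injEq, NN.gen.injEq] at h2
      have : (Ip a ws ++ [] ++ ([.nonterminal (.ins k 0), .nonterminal (.gen (Z.dst k)),
          .nonterminal (.rc false)] ++ ([] ++ Rp false n)) : List (Symbol T (NN D Q K))) =
          Ip a (ws ++ [k]) ++ ([.nonterminal (.gen (Z.dst k))] ++ Rp false (n + 1)) := by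
        rw [Ip_snoc, Rp_succ]
        simp
      rw [this]
      refine Inv.pre a (ws ++ [k]) (Z.dst k) (n + 1) ?_
      rw [List.length_append, List.length_singleton]
      rcases h with h | ⟨h, hg⟩
      · left; omega
      · right
        refine ⟨by omega, ?_⟩
        subst h2
        rcases a with _ | ⟨k', _ | _⟩
        · exact Chn.snoc hg k rfl
        · have := Chn.snoc hg k rfl
          exact this
        · exact hg
    | ctr =>
      obtain ⟨b1, b2, h1, rfl, rfl⟩ := loc_gen hαu
      obtain ⟨rfl, rfl, h2⟩ := single_gen h1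
      simp only [Symbol.nonterminal.injEq, NN.gen.injEq] at h2
      subst h2
      have : (Ip a ws ++ [] ++ ([.nonterminal (.md Z.s0)] ++ ([] ++ Rp false n)) :
          List (Symbol T (NN D Q K))) =
          Ip a ws ++ ([.nonterminal Z.s0].map emb ++ Rp false n) := by
        simp [emb]
      rw [this]
      refine Inv.post a ws _ false n ?_
      simp only [Bool.false_eq_true, if_false, Nat.add_zero]
      rcases h with h | ⟨h, hg⟩
      · exact Or.inl h
      · right
        refine ⟨h, ?_⟩
        rcases a with _ | ⟨k', _ | _⟩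
        · exact ⟨rfl, Z.q0, hg, Ticks.start⟩
        · obtain ⟨h1, h2⟩ := Chn.cons_inv hg
          refine ⟨h2, [.nonterminal Z.s0], ?_, ReflTransGen.refl⟩
          rw [← h1]
          exact Ticks.start
        · exact hg.elim
    | act k =>
      obtain ⟨a2, h1, rfl⟩ := loc_ins (hMpre q) hαu
      obtain ⟨rfl, rfl, ws', rfl, rfl⟩ := Ip_act h1 (fun k' i => hW _ ⟨k', i, rfl⟩)
      refine Inv.pre (some (k, false)) ws' q n ?_
      simp only [av, List.length_cons] at h ⊢
      rcases h with h | ⟨h, hg⟩
      · left; omega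
      · exact Or.inr ⟨by omega, hg⟩
    | nxt k =>
      obtain ⟨a2, h1, rfl⟩ := loc_ins (hMpre q) hαu
      obtain ⟨rfl, rfl, rfl⟩ := Ip_nxt h1
      refine Inv.pre (some (k, true)) ws q n ?_
      simp only [av] at h ⊢
      left
      simp only [Bool.false_eq_true, if_false]
      omega
    | era k =>
      obtain ⟨a2, h1, rfl⟩ := loc_ins (hMpre q) hαu
      obtain ⟨rfl, rfl, rfl⟩ := Ip_era h1
      refine Inv.pre none ws q n ?_
      simp only [av, Bool.false_eq_true, if_false] at h ⊢
      rcases h with h | ⟨h, hg⟩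
      · exact Or.inl h
      · exact hg.elim
    | pr k =>
      obtain ⟨c1, _, rfl⟩ := loc_rc (hMpre q) hαu
      exfalso
      exact hW (.gen q) (Or.inl ⟨q, rfl⟩) (by simp)
    | fin k =>
      obtain ⟨c1, h1, _⟩ := loc_rc (hMpre q) hαu
      obtain ⟨h2, _⟩ := Rp_fin h1
      exact absurd h2 (by simp)
    | mid k A x U W hin =>
      obtain ⟨b1, b2, h1, rfl, rfl⟩ := loc_md hαu
      obtain ⟨_, _, h2⟩ := single_gen h1
      simp at h2
  | post a ws ms b n h =>
    cases hr with
    | gen k =>
      obtain ⟨b1, b2, h1, _⟩ := loc_gen hαu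
      exact absurd h1 emb_ne_gen
    | ctr =>
      obtain ⟨b1, b2, h1, _⟩ := loc_gen hαu
      exact absurd h1 emb_ne_gen
    | act k =>
      obtain ⟨a2, h1, rfl⟩ := loc_ins (hMpost ms) hαu
      obtain ⟨rfl, rfl, ws', rfl, rfl⟩ := Ip_act h1 (fun k' i => hW _ ⟨k', i, rfl⟩)
      refine Inv.post (some (k, false)) ws' ms b n ?_
      simp only [av, List.length_cons] at h ⊢
      rcases h with h | ⟨h, hg⟩
      · left; omega
      · refine Or.inr ⟨by omega, ?_⟩
        obtain ⟨_, q, hc, ht⟩ := hg
        obtain ⟨rfl, hc2⟩ := Chn.cons_inv hc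
        exact ⟨hc2, ms, ht, ReflTransGen.refl⟩
    | nxt k =>
      obtain ⟨a2, h1, rfl⟩ := loc_ins (hMpost ms) hαu
      obtain ⟨rfl, rfl, rfl⟩ := Ip_nxt h1
      refine Inv.post (some (k, true)) ws ms b n ?_
      simp only [av] at h ⊢
      cases b
      · left
        simp only [Bool.false_eq_true, if_false] at h ⊢
        omega
      · simp only [if_true] at h ⊢
        rcases h with h | ⟨h, hg⟩
        · exact Or.inl h
        · exact Or.inr ⟨h, hg.1, fun _ => hg.2, fun h' => absurd h' (by simp)⟩
    | era k =>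
      obtain ⟨a2, h1, rfl⟩ := loc_ins (hMpost ms) hαu
      obtain ⟨rfl, rfl, rfl⟩ := Ip_era h1
      refine Inv.post none ws ms b n ?_
      simp only [av] at h ⊢
      cases b
      · simp only [Bool.false_eq_true, if_false] at h ⊢
        rcases h with h | ⟨h, hg⟩
        · exact Or.inl h
        · exact Or.inr ⟨h, rfl, _, hg.1, hg.2.2 rfl⟩
      · left
        simp only [if_true] at h ⊢
        omega
    | pr k =>
      obtain ⟨c1, h1, rfl⟩ := loc_rc (hMpost ms) hαu
      obtain ⟨rfl, rfl, n', rfl, rfl⟩ := Rp_pr h1 (fun b' hb' =>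
        hW (.rc b') (Or.inr ⟨b', rfl⟩) (by simp [hb']))
      have ha : a = some (k, false) := by
        have h2 := hU (.ins k 1) rfl
        rw [List.append_nil, List.mem_append] at h2
        rcases h2 with h2 | h2
        · exact mem_Ip1 h2
        · exact absurd h2 (not_ins (hMpost ms) _ _)
      subst ha
      have : (Ip (some (k, false)) ws ++ (ms.map emb ++ []) ++ ([.nonterminal (.rc true)] ++
          Rp false n') : List (Symbol T (NN D Q K))) =
          Ip (some (k, false)) ws ++ (ms.map emb ++ Rp true n') := by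
        rw [Rp_true]
        simp
      rw [this]
      refine Inv.post _ ws ms true n' ?_
      simp only [av, Bool.false_eq_true, if_false, if_true] at h ⊢
      rcases h with h | ⟨h, hg⟩
      · left; omega
      · exact Or.inr ⟨by omega, hg⟩
    | fin k =>
      obtain ⟨c1, h1, rfl⟩ := loc_rc (hMpost ms) hαu
      obtain ⟨rfl, rfl, rfl⟩ := Rp_fin h1
      have ha : a = some (k, true) := by
        have h2 := hU (.ins k 2) (Or.inl rfl)
        rw [List.append_nil, List.mem_append] at h2
        rcases h2 with h2 | h2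
        · exact mem_Ip2 h2
        · exact absurd h2 (not_ins (hMpost ms) _ _)
      subst ha
      have : (Ip (some (k, true)) ws ++ (ms.map emb ++ []) ++ ([] ++ Rp false n) :
          List (Symbol T (NN D Q K))) = Ip (some (k, true)) ws ++ (ms.map emb ++ Rp false n) := by
        simp
      rw [this]
      refine Inv.post _ ws ms false n ?_
      simp only [av, Bool.false_eq_true, if_false, if_true] at h ⊢
      rcases h with h | ⟨h, hg⟩
      · left; omega
      · refine Or.inr ⟨by omega, hg.1, fun h' => absurd h' (by simp), fun _ => ?_⟩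
        obtain ⟨ms0, h2, h3⟩ := hg.2.1 rfl
        refine Ticks.step k ms0 ms h2 h3 ⟨?_, ?_⟩
        · intro B hB
          have h4 := hU (.md B) (Or.inr ⟨B, hB, rfl⟩)
          rw [List.append_nil, List.mem_append] at h4
          rcases h4 with h4 | h4
          · obtain ⟨k', i, h5⟩ := mem_Ip h4
            simp at h5
          · obtain ⟨d, h5, h6⟩ := mem_emb h4
            simp only [NN.md.injEq] at h5
            rw [h5]
            exact h6
        · intro B hB hin
          refine hW (.md B) ⟨B, hB, rfl⟩ ?_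
          rw [List.append_nil, List.mem_append]
          right
          exact List.mem_map.2 ⟨_, hin, rfl⟩
    | mid k A x U W hin =>
      obtain ⟨b1, b2, h1, rfl, rfl⟩ := loc_md hαu
      obtain ⟨m1, m2, rfl, rfl, rfl⟩ := split_emb h1
      have ha : a = some (k, false) := by
        have h2 := hU (.ins k 1) (Or.inl rfl)
        rw [List.mem_append] at h2
        rcases h2 with h2 | h2
        · exact mem_Ip1 h2
        · exact absurd h2 (not_ins (hMpost m1) _ _)
      subst ha
      have : (Ip (some (k, false)) ws ++ m1.map emb ++ (x.map emb ++ (m2.map emb ++ Rp b n)) :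
          List (Symbol T (NN D Q K))) =
          Ip (some (k, false)) ws ++ ((m1 ++ (x ++ m2)).map emb ++ Rp b n) := by
        simp
      rw [this]
      refine Inv.post _ ws _ b n ?_
      simp only [av] at h ⊢
      rcases h with h | ⟨h, hg⟩
      · exact Or.inl h
      · refine Or.inr ⟨h, hg.1, ?_⟩
        obtain ⟨ms0, h2, h3⟩ := hg.2
        refine ⟨ms0, h2, h3.tail ⟨m1, m2, A, x, U, W, hin, rfl, rfl, ?_, ?_⟩⟩
        · intro B hB
          have h4 := hU (.md B) (Or.inr ⟨B, hB, rfl⟩)
          rw [List.mem_append] at h4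
          rcases h4 with h4 | h4
          · obtain ⟨k', i, h5⟩ := mem_Ip h4
            simp at h5
          · obtain ⟨d, h5, h6⟩ := mem_emb h4
            simp only [NN.md.injEq] at h5
            rw [h5]
            exact h6
        · intro B hB hmem
          refine hW (.md B) ⟨B, hB, rfl⟩ ?_
          rw [List.mem_append]
          right
          exact List.mem_map.2 ⟨_, hmem, rfl⟩

theorem sound {Z : Sys T D Q K} {w : List T}
    (h : ReflTransGen (Step Z) [.nonterminal (.gen Z.q0)] (w.map .terminal)) :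
    Ticks Z Z.q0 (w.map .terminal) := by
  have h0 : Inv Z [.nonterminal (.gen Z.q0)] := by
    have := Inv.pre (Z := Z) none [] Z.q0 0 (Or.inr ⟨rfl, Chn.nil _⟩)
    simpa [Ip, Rp] using this
  have h1 : ∀ β, ReflTransGen (Step Z) [.nonterminal (.gen Z.q0)] β → Inv Z β := by
    intro β hβ
    induction hβ with
    | refl => exact h0
    | tail _ hs ih => exact inv_step ih hs
  have h2 := h1 _ h
  generalize hw : (w.map .terminal : List (Symbol T (NN D Q K))) = β at h2
  have hnt : ∀ X : NN D Q K, (.nonterminal X : Symbol T (NN D Q K)) ∉ β := by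
    intro X hX
    rw [← hw] at hX
    simp at hX
  cases h2 with
  | pre a ws q n h =>
    exact absurd (by simp) (hnt (.gen q))
  | post a ws ms b n h =>
    have ha : a = none := by
      rcases a with _ | ⟨k, _ | _⟩
      · rfl
      · exact absurd (by simp [Ip]) (hnt (.ins k 1))
      · exact absurd (by simp [Ip]) (hnt (.ins k 2))
    subst ha
    have hws : ws = [] := by
      cases ws with
      | nil => rfl
      | cons k ws => exact absurd (by simp [Ip]) (hnt (.ins k 0))
    subst hws
    have hb : b = false := by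
      cases b
      · rfl
      · exact absurd (by simp [Rp]) (hnt (.rc true))
    subst hb
    have hn : n = 0 := by
      cases n with
      | zero => rfl
      | succ n => exact absurd (by simp [Rp]) (hnt (.rc false))
    subst hn
    rcases h with h | ⟨_, hg⟩
    · simp [av] at h
    · obtain ⟨_, q, hc, ht⟩ := hg
      rw [Chn.nil_inv hc] at ht
      have hms : ms = w.map .terminal := by
        simp only [Ip, List.map_nil, List.nil_append, Rp, Bool.false_eq_true, if_false,
          List.replicate_zero, List.append_nil] at hw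
        have h3 : (w.map .terminal : List (Symbol T (NN D Q K))) =
            (w.map .terminal : List (Symbol T D)).map emb := by
          rw [List.map_map]
          rfl
        rw [h3] at hw
        exact (List.map_injective_iff.2 emb_inj hw).symm
      rw [← hms]
      exact ht

end Pool.Agent.TH683.LRC
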